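import Pool.Agent.T2h09.LL.CF4

/-!
# The cusp form of `S_CF` (helper9)
-/

set_option autoImplicit false

noncomputable section

open scoped Polynomial WithZero
open IsDedekindDomain WithZero
open Pool.Agent.T2h66.LL

namespace Pool.Agent.T2h09.LL

variable (c : GL (Fin 2) Af → ℂ)

/-- `g` is in the double coset of `(Kf, K1·sc)`, `K1 = w⁻¹ GO w` -/
def E1 (g : GA) : Prop := ∃ (γ : GL (Fin 2) K) (k : GL (Fin 2) Af) (h : GL (Fin 2) Ki) (z : Kiˣ),
  k ∈ Kf ∧ h ∈ GO vI ∧ g = diagK γ * (k, ww⁻¹ * h * ww * sc z)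

lemma not_E1 (hIF : S_IF) {g : GA} (hg : ¬ E1 g) {κ : GL (Fin 2) Ki} (hκ : κ ∈ GO vI) :
    f1 c (g * atI (ww⁻¹ * κ * ww)) = 0 := by
  apply f1_zero
  rintro k ⟨γ, u, z, hu, hk, h⟩
  apply hg
  have hu' : ww * u * ww⁻¹ ∈ Iw vI := by rw [ww_conj]; exact ww_Iw hIF hu
  refine ⟨γ, k, ww * u * ww⁻¹ * κ⁻¹, z, hk, (GO vI).mul_mem hu'.1 ((GO vI).inv_mem hκ), ?_⟩
  have h1 : g = (g * atI (ww⁻¹ * κ * ww)) * atI (ww⁻¹ * κ * ww)⁻¹ := by
    rw [mul_assoc, ← map_mul, mul_inv_cancel, map_one, mul_one]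
  rw [h1, h, mul_assoc, atI_eq, pmul k 1, mul_one, mul_assoc u, ← sc_comm (ww⁻¹ * κ * ww)⁻¹,
    ← mul_assoc u]
  congr 3
  group

/-- the value at a point of the double coset -/
def F2 (γ : GL (Fin 2) K) (k : GL (Fin 2) Af) (z : Kiˣ) (τ : GL (Fin 2) (ZMod 2)) : ℂ :=
  f1 c (diagK γ * (k, ww⁻¹ * cI (cC τ) * ww * sc z))

lemma F2_Iw (hIF : S_IF) (γ : GL (Fin 2) K) (k : GL (Fin 2) Af) (z : Kiˣ) (x u : GL (Fin 2) Ki)
    (hu : u ∈ Iw vI) : f1 c (diagK γ * (k, ww⁻¹ * (x * u) * ww * sc z)) =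
      f1 c (diagK γ * (k, ww⁻¹ * x * ww * sc z)) := by
  have h1 := f1_Iw c (ww_Iw hIF hu) (diagK γ * (k, ww⁻¹ * x * ww * sc z))
  rw [← h1, mul_assoc (diagK γ), atI_eq, pmul k 1, mul_one, mul_assoc (ww⁻¹ * x * ww),
    ← sc_comm (ww⁻¹ * u * ww), ← mul_assoc (ww⁻¹ * x * ww)]
  congr 4
  group

lemma F2_nU (hIF : S_IF) (γ : GL (Fin 2) K) (k : GL (Fin 2) Af) (z : Kiˣ)
    (τ : GL (Fin 2) (ZMod 2)) : F2 c γ k z (τ * nU 1) = F2 c γ k z τ := by
  unfold F2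
  rw [map_mul, map_mul]
  apply F2_Iw c hIF
  rw [cIC_nU]
  have h := cIC_mem (nU 1)
  rw [cIC_nU] at h
  refine ⟨h, ?_⟩
  rw [nU_val]
  simp

lemma F2_key (hIF : S_IF) (γ : GL (Fin 2) K) (k : GL (Fin 2) Af) (z : Kiˣ)
    (δ : GL (Fin 2) (ZMod 2)) {h : GL (Fin 2) Ki} (hδ : (cI (cC δ))⁻¹ * h ∈ P1 vI)
    (κ : GL (Fin 2) (ZMod 2)) :
    f1 c (diagK γ * (k, ww⁻¹ * h * ww * sc z) * atI (ww⁻¹ * cI (cC κ) * ww)) =
      F2 c γ k z (δ * κ) := by
  have h1 := P1_Iw _ (P1_conj _ hδ (cIC_mem κ))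
  have h2 := F2_Iw c hIF γ k z (cI (cC (δ * κ))) _ h1
  rw [F2, ← h2, mul_assoc (diagK γ), atI_eq, pmul k 1, mul_one, mul_assoc (ww⁻¹ * h * ww),
    ← sc_comm (ww⁻¹ * cI (cC κ) * ww), ← mul_assoc (ww⁻¹ * h * ww), map_mul, map_mul]
  congr 4
  group

lemma F2_one (hIN : S_IN) (hIF : S_IF) (hc : ∀ k ∈ Kf, c (nU 1 * k) = c k)
    (γ : GL (Fin 2) K) {k : GL (Fin 2) Af} (hk : k ∈ Kf) (z : Kiˣ) : F2 c γ k z 1 = c k := by
  refine f1_eq c hIN hIF hc ⟨γ, 1, z, (IwS vI).one_mem, hk, ?_⟩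
  rw [map_one, map_one, mul_one, inv_mul_cancel]

lemma aI_X : aI Polynomial.X = (tI : Ki) := by
  change algebraMap K Ki (algebraMap A K Polynomial.X) = algebraMap K Ki RatFunc.X
  rw [RatFunc.algebraMap_X]

lemma F2_no (hIN : S_IN) (hIF : S_IF) (hc : ∀ k ∈ Kf, c (nU 1 * k) = c k)
    (γ : GL (Fin 2) K) {k : GL (Fin 2) Af} (hk : k ∈ Kf) (z : Kiˣ) :
    F2 c γ k z (nU 1 * om) = c (nU (aF Polynomial.X) * k) := by
  have hX : -(Polynomial.X : A) = Polynomial.X := CharTwo.neg_eq _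
  have hcF : (cF (nU (Polynomial.X : A)))⁻¹ = nU (aF Polynomial.X) := by
    rw [← map_inv, nU_inv, hX, cF, map_nU]
  have hcI : (cI (nU (Polynomial.X : A)))⁻¹ = nU (tI : Ki) := by
    rw [← map_inv, nU_inv, hX, cI, map_nU, aI_X]
  have htt : (tI : Ki) + tI = 0 := by
    rw [← aI_X, ← map_add, CharTwo.add_self_eq_zero, map_zero]
  have hpi : ((pI⁻¹ : Kiˣ) : Ki) = tI := by rw [pI, inv_inv]
  have htp : (tI : Ki) * (pI : Ki) = 1 := by rw [pI, ← Units.val_mul, mul_inv_cancel]; rfl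
  have hp : vI (pI : Ki) = exp (-1 : ℤ) := hIF.1
  have hp1 : vI (pI : Ki) < 1 := by rw [hp, ← exp_zero, exp_lt_exp]; omega
  refine f1_eq c hIN hIF hc ⟨γ * cK (nU Polynomial.X), nU (tI : Ki) * (ww⁻¹ * (nU 1 * om) * ww), z,
    ?_, Kf.mul_mem (by rw [← hcF]; exact Kf.inv_mem (cF_mem _)) hk, ?_⟩
  · obtain ⟨h00, h01, h10, h11⟩ := ww_ent (nU 1 * om)
    have g00 : (nU 1 * om : GL (Fin 2) Ki) 0 0 = 1 := by
      rw [Units.val_mul, nU_val, om_val]; simp [Matrix.mul_apply]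
    have g01 : (nU 1 * om : GL (Fin 2) Ki) 0 1 = 1 := by
      rw [Units.val_mul, nU_val, om_val]; simp [Matrix.mul_apply]
    have g10 : (nU 1 * om : GL (Fin 2) Ki) 1 0 = 1 := by
      rw [Units.val_mul, nU_val, om_val]; simp [Matrix.mul_apply]
    have g11 : (nU 1 * om : GL (Fin 2) Ki) 1 1 = 0 := by
      rw [Units.val_mul, nU_val, om_val]; simp [Matrix.mul_apply]
    rw [g11] at h00
    rw [g10, one_mul, hpi] at h01
    rw [g01, one_mul] at h10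
    rw [g00] at h11
    set M := (ww⁻¹ * (nU 1 * om) * ww : GL (Fin 2) Ki) with hM
    have e00 : (nU (tI : Ki) * M : GL (Fin 2) Ki) 0 0 = 1 := by
      rw [Units.val_mul, Matrix.mul_apply, Fin.sum_univ_two, h00, h10, nU_val]
      simpa using htp
    have e01 : (nU (tI : Ki) * M : GL (Fin 2) Ki) 0 1 = 0 := by
      rw [Units.val_mul, Matrix.mul_apply, Fin.sum_univ_two, h01, h11, nU_val]
      simpa using htt
    have e10 : (nU (tI : Ki) * M : GL (Fin 2) Ki) 1 0 = pI := by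
      rw [Units.val_mul, Matrix.mul_apply, Fin.sum_univ_two, h00, h10, nU_val]
      simp
    have e11 : (nU (tI : Ki) * M : GL (Fin 2) Ki) 1 1 = 1 := by
      rw [Units.val_mul, Matrix.mul_apply, Fin.sum_univ_two, h01, h11, nU_val]
      simp
    refine ⟨(GO_iff vI).2 ⟨?_, ?_⟩, ?_⟩
    · intro i j
      fin_cases i <;> fin_cases j
      · change vI ((nU (tI : Ki) * M : GL (Fin 2) Ki) 0 0) ≤ 1
        rw [e00, map_one]
      · change vI ((nU (tI : Ki) * M : GL (Fin 2) Ki) 0 1) ≤ 1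
        rw [e01, map_zero]; exact zero_le_one
      · change vI ((nU (tI : Ki) * M : GL (Fin 2) Ki) 1 0) ≤ 1
        rw [e10]; exact hp1.le
      · change vI ((nU (tI : Ki) * M : GL (Fin 2) Ki) 1 1) ≤ 1
        rw [e11, map_one]
    · rw [e00, e01, e10, e11, one_mul, zero_mul, sub_zero, map_one]
    · rw [e10]; exact hp1
  · rw [shift γ _ _ (nU Polynomial.X), hcF, hcI, cIC_no, ← mul_assoc (nU (tI : Ki))]

lemma F2_om (hIN : S_IN) (hIF : S_IF) (γ : GL (Fin 2) K) {k : GL (Fin 2) Af} (hk : k ∈ Kf)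
    (z : Kiˣ) : F2 c γ k z om = 0 := by
  apply f1_zero
  rintro k' ⟨γ', u', z', hu', hk', h'⟩
  rw [cIC_om] at h'
  have h1 : diagK (γ'⁻¹ * γ) * (k, ww⁻¹ * om * ww * sc z) = (k', u' * sc z') := by
    rw [map_mul, mul_assoc, h', ← mul_assoc, ← map_mul, inv_mul_cancel, map_one, one_mul]
  have h2 : Matrix.GeneralLinearGroup.map (algebraMap K Af) (γ'⁻¹ * γ) * k = k' :=
    congrArg Prod.fst h1
  have h3 : Matrix.GeneralLinearGroup.map (algebraMap K Ki) (γ'⁻¹ * γ) *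
      (ww⁻¹ * om * ww * sc z) = u' * sc z' := congrArg Prod.snd h1
  obtain ⟨δ, hδ⟩ := lift_A hIN (γ'⁻¹ * γ) (by
    rw [eq_mul_inv_of_mul_eq h2]
    exact Kf.mul_mem hk' (Kf.inv_mem hk))
  have h5 : cI δ * (ww⁻¹ * om * ww * sc z) = u' * sc z' := by
    rw [← h3, ← hδ]
    congr 1
  have h6 : cI δ = (u' * (ww⁻¹ * om * ww)) * sc (z' * z⁻¹) := by
    have hinv : (ww⁻¹ * om * ww : GL (Fin 2) Ki)⁻¹ = ww⁻¹ * om * ww := by
      have : (om : GL (Fin 2) Ki)⁻¹ = om := om_inv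
      rw [mul_inv_rev, mul_inv_rev, inv_inv, this, mul_assoc]
    rw [eq_mul_inv_of_mul_eq h5, mul_inv_rev, sc_inv, hinv, mul_assoc u', ← mul_assoc (sc z'),
      sc_mul, ← sc_comm (ww⁻¹ * om * ww), ← mul_assoc]
  obtain ⟨h00, h01, h10, h11⟩ := ww_ent om
  have hp : vI (pI : Ki) = exp (-1 : ℤ) := hIF.1
  have hpi : ((pI⁻¹ : Kiˣ) : Ki) * (pI : Ki) = 1 := by rw [← Units.val_mul, inv_mul_cancel]; rfl
  have o00 : (om : GL (Fin 2) Ki) 0 0 = 0 := rfl
  have o01 : (om : GL (Fin 2) Ki) 0 1 = 1 := rfl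
  have o10 : (om : GL (Fin 2) Ki) 1 0 = 1 := rfl
  have o11 : (om : GL (Fin 2) Ki) 1 1 = 0 := rfl
  rw [o11] at h00
  rw [o10, one_mul] at h01
  rw [o01, one_mul] at h10
  rw [o00] at h11
  set M := (ww⁻¹ * om * ww : GL (Fin 2) Ki) with hM
  have hent : ∀ i j, aI (δ i j) = (u' * M : GL (Fin 2) Ki) i j * ((z' * z⁻¹ : Kiˣ) : Ki) := by
    intro i j
    rw [← cI_apply, h6, mul_sc_apply]
  set ζ : Ki := ((z' * z⁻¹ : Kiˣ) : Ki) with hζ
  have m00 : (u' * M : GL (Fin 2) Ki) 0 0 = u' 0 1 * pI := by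
    rw [Units.val_mul, Matrix.mul_apply, Fin.sum_univ_two, h00, h10]; ring
  have m01 : (u' * M : GL (Fin 2) Ki) 0 1 = u' 0 0 * ((pI⁻¹ : Kiˣ) : Ki) := by
    rw [Units.val_mul, Matrix.mul_apply, Fin.sum_univ_two, h01, h11]; ring
  have m10 : (u' * M : GL (Fin 2) Ki) 1 0 = u' 1 1 * pI := by
    rw [Units.val_mul, Matrix.mul_apply, Fin.sum_univ_two, h00, h10]; ring
  have m11 : (u' * M : GL (Fin 2) Ki) 1 1 = u' 1 0 * ((pI⁻¹ : Kiˣ) : Ki) := by
    rw [Units.val_mul, Matrix.mul_apply, Fin.sum_univ_two, h01, h11]; ring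
  have hdet := congrArg aI (det_A δ)
  have hz : vI ζ = 1 := by
    rw [map_sub, map_mul, map_mul, hent, hent, hent, hent, map_one, m00, m01, m10, m11] at hdet
    have h1 : (u' 0 0 * u' 1 1 - u' 0 1 * u' 1 0) * (ζ * ζ) = -1 := by
      linear_combination (-1 : Ki) * hdet + (-(u' 0 0 * u' 1 1 - u' 0 1 * u' 1 0) * (ζ * ζ)) * hpi
    have h2 := congrArg vI h1
    rw [map_mul, GO_det _ hu'.1, one_mul, map_mul, Valuation.map_neg, map_one] at h2
    rcases lt_trichotomy (vI ζ) 1 with h3 | h3 | h3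
    · exfalso
      exact absurd h2 (ne_of_lt ((mul_le_of_le_one_left' h3.le).trans_lt h3))
    · exact h3
    · exfalso
      exact absurd h2.symm (ne_of_lt (h3.trans_le (le_mul_of_one_le_left' h3.le)))
  have hv10 : vI (aI (δ 1 0)) = vI (u' 1 1) * exp (-1 : ℤ) := by
    rw [hent, m10, map_mul, map_mul, hz, mul_one, hp]
  have hlt : vI (aI (δ 1 0)) < 1 := by
    rw [hv10]
    exact (mul_le_of_le_one_left' (hu'.1 1 1).1).trans_lt (by rw [← exp_zero, exp_lt_exp]; omega)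
  have h0 : δ 1 0 = 0 := val_aI_ge hIF _ hlt
  rw [h0, map_zero, map_zero] at hv10
  have hu11 : vI (u' 1 1) = 0 := by
    rcases mul_eq_zero.1 hv10.symm with h | h
    · exact h
    · exact absurd h exp_ne_zero
  have hd := GO_det vI hu'.1
  have hlt2 : vI (u' 0 0 * u' 1 1 - u' 0 1 * u' 1 0) < 1 := by
    refine (vI.map_sub _ _).trans_lt (max_lt ?_ ?_)
    · rw [map_mul, hu11, mul_zero]; exact zero_lt_one
    · rw [map_mul]
      exact (mul_le_of_le_one_left' (hu'.1 0 1).1).trans_lt hu'.2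
  rw [hd] at hlt2
  exact absurd hlt2 (lt_irrefl _)

lemma sum2 (hIN : S_IN) (hIF : S_IF) (hc : ∀ k ∈ Kf, c (nU 1 * k) = c k)
    (hc4 : ∀ k ∈ Kf, c k + c (nU (aF Polynomial.X) * k) = 0) (g : GA) :
    f1 c (g * atI ww) + f1 c (g * atI om * atI ww) + f1 c (g * atI (nU 1 * om) * atI ww) = 0 := by
  have e : ∀ κ : GL (Fin 2) Ki, g * atI κ * atI ww = g * atI ww * atI (ww⁻¹ * κ * ww) := by
    intro κ
    rw [mul_assoc, mul_assoc, ← map_mul, ← map_mul]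
    congr 2
    group
  rw [e, e]
  set g' := g * atI ww with hg'
  by_cases h : E1 g'
  · obtain ⟨γ, k, h, z, hk, hh, hgg⟩ := h
    rw [hgg]
    obtain ⟨δ, hδ⟩ := reduce hIF hh
    have h0 := F2_key c hIF γ k z δ hδ 1
    have h1 := F2_key c hIF γ k z δ hδ om
    have h2 := F2_key c hIF γ k z δ hδ (nU 1 * om)
    rw [map_one, map_one, mul_one ww⁻¹, inv_mul_cancel, map_one, mul_one, mul_one] at h0
    rw [cIC_om] at h1
    rw [cIC_no] at h2
    rw [h0, h1, h2, perm _ (F2_nU c hIF γ k z) δ, F2_one c hIN hIF hc γ hk z, F2_om c hIN hIF γ hk z,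
      F2_no c hIN hIF hc γ hk z, add_zero]
    exact hc4 k hk
  · have h0 := not_E1 c hIF h (GO vI).one_mem
    rw [mul_one ww⁻¹, inv_mul_cancel, map_one, mul_one] at h0
    have hom : (om : GL (Fin 2) Ki) ∈ GO vI := by
      rw [← cIC_om]; exact cIC_mem _
    have hnU : (nU 1 : GL (Fin 2) Ki) ∈ GO vI := by
      rw [← cIC_nU]; exact cIC_mem _
    rw [h0, not_E1 c hIF h hom, not_E1 c hIF h ((GO vI).mul_mem hnU hom)]
    norm_num

/-- the value at `1` of the translate by `w` -/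
lemma f1_ww (hIN : S_IN) (hIF : S_IF) : f1 c (atI ww) = 0 := by
  apply f1_zero
  rintro k' ⟨γ', u', z', hu', hk', h'⟩
  have h1 : diagK γ'⁻¹ * atI ww = (k', u' * sc z') := by
    rw [h', ← mul_assoc, ← map_mul, inv_mul_cancel, map_one, one_mul]
  have h2 : Matrix.GeneralLinearGroup.map (algebraMap K Af) γ'⁻¹ * 1 = k' :=
    congrArg Prod.fst h1
  have h3 : Matrix.GeneralLinearGroup.map (algebraMap K Ki) γ'⁻¹ * ww = u' * sc z' :=
    congrArg Prod.snd h1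
  obtain ⟨δ, hδ⟩ := lift_A hIN γ'⁻¹ (by
    rw [eq_mul_inv_of_mul_eq h2, inv_one, mul_one]
    exact hk')
  have h5 : cI δ * ww = u' * sc z' := by
    rw [← h3, ← hδ]
    congr 1
  have hp : vI (pI : Ki) = exp (-1 : ℤ) := hIF.1
  have h6 : (cI δ * ww : GL (Fin 2) Ki).1.det = (u' * sc z' : GL (Fin 2) Ki).1.det :=
    congrArg (fun g : GL (Fin 2) Ki => g.1.det) h5
  have hdet := congrArg aI (det_A δ)
  rw [map_sub, map_mul, map_mul, map_one] at hdet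
  have h7 : (cI δ * ww : GL (Fin 2) Ki).1.det = -(pI : Ki) := by
    rw [Units.val_mul, Matrix.det_mul, Matrix.det_fin_two, cI_apply, cI_apply, cI_apply, cI_apply,
      hdet, one_mul, ww, Units.val_mul, Matrix.det_mul, om_val, da_val, Matrix.det_fin_two,
      Matrix.det_fin_two]
    simp
  have h8 : (u' * sc z' : GL (Fin 2) Ki).1.det =
      (u' 0 0 * u' 1 1 - u' 0 1 * u' 1 0) * ((z' : Ki) * z') := by
    rw [Units.val_mul, Matrix.det_mul, Matrix.det_fin_two, sc_val, Matrix.det_fin_two]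
    simp
  rw [h7, h8] at h6
  have h9 := congrArg vI h6
  rw [Valuation.map_neg, map_mul, GO_det vI hu'.1, one_mul, map_mul, hp] at h9
  have hz0 : vI (z' : Ki) ≠ 0 := (Valuation.ne_zero_iff _).2 z'.ne_zero
  rw [← exp_log hz0, ← exp_add, exp_inj] at h9
  omega

theorem t_CF : S_C0 → S_CN → S_IN → S_IF → S_CF := by
  rintro ⟨c, hc0, hc, hc3, hc4, ⟨N, hN, hc5⟩, hc6⟩ - hIN hIF
  have hww : ∀ g : GA, f1 c (g * atI ww * atI ww) = f1 c g := by
    intro g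
    rw [mul_assoc, ← map_mul, ww_sq, f1_sc]
  have hkf : ∀ (s : ℂ) {κ : GL (Fin 2) Af}, κ ∈ Kf → (∀ k ∈ Kf, c (k * κ) = s * c k) → ∀ g : GA,
      f1 c (g * (κ, 1)) - f1 c (g * (κ, 1) * atI ww) = s * (f1 c g - f1 c (g * atI ww)) := by
    intro s κ hκ hs g
    have h1 : g * (κ, 1) * atI ww = g * atI ww * (κ, 1) := by
      rw [mul_assoc, mul_assoc]
      congr 1
      rw [atI_eq, pmul κ 1, pmul 1 κ, one_mul, mul_one, one_mul, mul_one]
    rw [h1, f1_kf c hIN hIF hc s hκ hs, f1_kf c hIN hIF hc s hκ hs, mul_sub]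
  refine ⟨fun g => f1 c g - f1 c (g * atI ww), ?_, ?_, ⟨N, hN, ?_⟩, ⟨?_, ?_, ?_, ?_⟩, ?_⟩
  · have h1 : f1 c 1 = c 1 := by
      refine f1_eq c hIN hIF hc ⟨1, 1, 1, (IwS vI).one_mem, Kf.one_mem, ?_⟩
      rw [map_one, one_mul, one_mul, sc_one]
      rfl
    change f1 c 1 - f1 c (1 * atI ww) ≠ 0
    rw [one_mul, f1_ww c hIN hIF, h1, sub_zero]
    exact hc0
  · intro γ g
    change f1 c (diagK γ * g) - f1 c (diagK γ * g * atI ww) = f1 c g - f1 c (g * atI ww)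
    rw [mul_assoc, f1_left, f1_left]
  · intro κ hκ h g
    have := hkf 1 hκ (fun k hk => by rw [one_mul]; exact hc5 k hk κ hκ h) g
    rw [one_mul] at this
    exact this
  · intro u hu
    funext g
    change f1 c (g * atI u) - f1 c (g * atI u * atI ww) = f1 c g - f1 c (g * atI ww)
    have h1 : g * atI u * atI ww = g * atI ww * atI (ww⁻¹ * u * ww) := by
      rw [mul_assoc, mul_assoc, ← map_mul, ← map_mul]
      congr 2
      group
    rw [h1, f1_Iw c hu, f1_Iw c (ww_Iw hIF hu)]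
  · intro z
    funext g
    change f1 c (g * atI (sc z)) - f1 c (g * atI (sc z) * atI ww) = f1 c g - f1 c (g * atI ww)
    have h1 : g * atI (sc z) * atI ww = g * atI ww * atI (sc z) := by
      rw [mul_assoc, mul_assoc, ← map_mul, ← map_mul, sc_comm]
    rw [h1, f1_sc, f1_sc]
  · funext g
    change f1 c (g * atI ww) - f1 c (g * atI ww * atI ww) = -(f1 c g - f1 c (g * atI ww))
    rw [hww]
    ring
  · funext g
    change (f1 c g - f1 c (g * atI ww)) + (f1 c (g * atI om) - f1 c (g * atI om * atI ww)) +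
      (f1 c (g * atI (nU 1 * om)) - f1 c (g * atI (nU 1 * om) * atI ww)) = 0
    linear_combination sum1 c hIN hIF hc hc3 g - sum2 c hIN hIF hc hc4 g
  · intro g
    obtain ⟨y, κ, hκ, hy, hck⟩ := hc6 g.1
    refine ⟨(y, 0), fun x => ?_⟩
    have h1 : nA (x + (y, 0)) * g = nA x * g * (κ, 1) := by
      have h2 : nA (x + (y, 0)) = nA x * (nU y, 1) := by
        change ((nU (x.1 + y), nU (x.2 + 0)) : GA) = (nU x.1, nU x.2) * (nU y, 1)
        rw [pmul (nU x.1) (nU y), nU_mul, add_zero, mul_one]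
      have h3 : ((nU y, 1) : GA) * g = g * (κ, 1) := by
        refine Prod.ext ?_ ?_
        · exact hy
        · change 1 * g.2 = g.2 * 1
          rw [one_mul, mul_one]
      rw [h2, mul_assoc, h3, mul_assoc]
    have h4 := hkf (-1) hκ (fun k hk => by rw [hck k hk]; ring) (nA x * g)
    change f1 c (nA (x + (y, 0)) * g) - f1 c (nA (x + (y, 0)) * g * atI ww) =
      -(f1 c (nA x * g) - f1 c (nA x * g * atI ww))
    rw [h1, h4]
    ring

end Pool.Agent.T2h09.LL
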