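import Pool.Agent.T2h66.LL.Stm

/-!
# The cusp form of `S_CF`: elementary lemmas (helper9)
-/

set_option autoImplicit false

noncomputable section

open scoped Polynomial WithZero
open IsDedekindDomain WithZero
open Pool.Agent.T2h66.LL

namespace Pool.Agent.T2h09.LL

/-! ### matrices -/

section mat

variable {R : Type} [CommRing R]

lemma om_val : ((om : GL (Fin 2) R) : Matrix (Fin 2) (Fin 2) R) = !![0, 1; 1, 0] := rfl

lemma nU_val (x : R) : ((nU x : GL (Fin 2) R) : Matrix (Fin 2) (Fin 2) R) = !![1, x; 0, 1] := rfl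

lemma da_val (a : Rˣ) : ((da a : GL (Fin 2) R) : Matrix (Fin 2) (Fin 2) R)
    = !![(a : R), 0; 0, ((1 : Rˣ) : R)] := rfl

lemma sc_val (a : Rˣ) : ((sc a : GL (Fin 2) R) : Matrix (Fin 2) (Fin 2) R)
    = !![(a : R), 0; 0, (a : R)] := rfl

lemma inv_val (g : GL (Fin 2) R) : ((g⁻¹ : GL (Fin 2) R) : Matrix (Fin 2) (Fin 2) R) =
    (g : Matrix (Fin 2) (Fin 2) R)⁻¹ := Matrix.coe_units_inv g

lemma om_mul_om : (om : GL (Fin 2) R) * om = 1 := by
  ext i j
  fin_cases i <;> fin_cases j <;> simp [om_val, Matrix.mul_apply, Fin.sum_univ_two]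

lemma om_inv : (om : GL (Fin 2) R)⁻¹ = om := inv_eq_of_mul_eq_one_left om_mul_om

lemma nU_mul (x y : R) : nU x * nU y = nU (x + y) := by
  ext i j
  fin_cases i <;> fin_cases j <;>
    simp [nU_val, Matrix.mul_apply, Fin.sum_univ_two, add_comm]

lemma nU_zero : nU (0 : R) = 1 := by
  ext i j
  fin_cases i <;> fin_cases j <;> simp [nU_val]

lemma nU_inv (x : R) : (nU x)⁻¹ = nU (-x) := by
  apply inv_eq_of_mul_eq_one_left
  rw [nU_mul, neg_add_cancel, nU_zero]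

lemma mul_sc_apply (g : GL (Fin 2) R) (z : Rˣ) (i j : Fin 2) :
    (g * sc z : GL (Fin 2) R) i j = g i j * (z : R) := by
  rw [Units.val_mul, Matrix.mul_apply, Fin.sum_univ_two, sc_val]
  fin_cases j <;> simp

lemma sc_comm (g : GL (Fin 2) R) (z : Rˣ) : g * sc z = sc z * g := by
  ext i j
  rw [mul_sc_apply, Units.val_mul, Matrix.mul_apply, Fin.sum_univ_two, sc_val]
  fin_cases i <;> simp [mul_comm]

lemma sc_mul (z w : Rˣ) : sc z * sc w = sc (z * w) := by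
  ext i j
  fin_cases i <;> fin_cases j <;> simp [sc_val, Matrix.mul_apply, Fin.sum_univ_two]

lemma sc_one : sc (1 : Rˣ) = 1 := by
  ext i j
  fin_cases i <;> fin_cases j <;> simp [sc_val]

lemma sc_inv (z : Rˣ) : (sc z)⁻¹ = sc z⁻¹ := by
  apply inv_eq_of_mul_eq_one_left
  rw [sc_mul, inv_mul_cancel, sc_one]

variable {S : Type} [CommRing S] (f : R →+* S)

lemma map_nU (x : R) : Matrix.GeneralLinearGroup.map f (nU x) = nU (f x) := by
  ext i j
  fin_cases i <;> fin_cases j <;> simp [nU_val]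

lemma map_om : Matrix.GeneralLinearGroup.map f (om : GL (Fin 2) R) = om := by
  ext i j
  fin_cases i <;> fin_cases j <;> simp [om_val]

lemma inv_entries (g : GL (Fin 2) R) : ∃ d : R, d * (g 0 0 * g 1 1 - g 0 1 * g 1 0) = 1 ∧
    (g⁻¹ : GL (Fin 2) R) 0 0 = d * g 1 1 ∧ (g⁻¹ : GL (Fin 2) R) 0 1 = -(d * g 0 1) ∧
    (g⁻¹ : GL (Fin 2) R) 1 0 = -(d * g 1 0) ∧ (g⁻¹ : GL (Fin 2) R) 1 1 = d * g 0 0 := by
  have hdet : IsUnit (g : Matrix (Fin 2) (Fin 2) R).det :=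
    (Matrix.isUnit_iff_isUnit_det _).1 g.isUnit
  refine ⟨Ring.inverse (g : Matrix (Fin 2) (Fin 2) R).det, ?_, ?_⟩
  · rw [← Matrix.det_fin_two]
    exact Ring.inverse_mul_cancel _ hdet
  · have h1 : ((g⁻¹ : GL (Fin 2) R) : Matrix (Fin 2) (Fin 2) R) =
        Ring.inverse (g : Matrix (Fin 2) (Fin 2) R).det •
          (g : Matrix (Fin 2) (Fin 2) R).adjugate := by
      rw [inv_val, Matrix.inv_def]
    rw [h1, Matrix.adjugate_fin_two]
    simp

end mat

/-! ### `GO` and determinants -/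

section val

variable {F : Type} [Field F] (v : Valuation F ℤᵐ⁰)

lemma GO_det {g : GL (Fin 2) F} (hg : g ∈ GO v) : v (g 0 0 * g 1 1 - g 0 1 * g 1 0) = 1 := by
  have key : ∀ h : GL (Fin 2) F, (∀ i j, v (h i j) ≤ 1) →
      v (h 0 0 * h 1 1 - h 0 1 * h 1 0) ≤ 1 := by
    intro h hh
    refine (v.map_sub _ _).trans (max_le ?_ ?_) <;> rw [map_mul]
    · exact mul_le_one' (hh _ _) (hh _ _)
    · exact mul_le_one' (hh _ _) (hh _ _)
  have h1 := key g fun i j => (hg i j).1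
  have h2 := key g⁻¹ fun i j => (hg i j).2
  have h3 : (g 0 0 * g 1 1 - g 0 1 * g 1 0) *
      ((g⁻¹ : GL (Fin 2) F) 0 0 * (g⁻¹ : GL (Fin 2) F) 1 1 -
        (g⁻¹ : GL (Fin 2) F) 0 1 * (g⁻¹ : GL (Fin 2) F) 1 0) = 1 := by
    rw [← Matrix.det_fin_two, ← Matrix.det_fin_two, ← Matrix.det_mul, ← Units.val_mul,
      mul_inv_cancel, Units.val_one, Matrix.det_one]
  refine le_antisymm h1 ?_
  have h4 := congrArg v h3
  rw [map_mul, map_one] at h4
  calc (1 : ℤᵐ⁰) = v (g 0 0 * g 1 1 - g 0 1 * g 1 0) * _ := h4.symm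
    _ ≤ v (g 0 0 * g 1 1 - g 0 1 * g 1 0) * 1 := mul_le_mul_right h2 _
    _ = _ := mul_one _

lemma GO_iff {g : GL (Fin 2) F} : g ∈ GO v ↔ (∀ i j, v (g i j) ≤ 1) ∧
    v (g 0 0 * g 1 1 - g 0 1 * g 1 0) = 1 := by
  refine ⟨fun h => ⟨fun i j => (h i j).1, GO_det v h⟩, fun ⟨h1, h2⟩ => ?_⟩
  obtain ⟨d, hd, h00, h01, h10, h11⟩ := inv_entries g
  have hvd : v d = 1 := by
    have := congrArg v hd
    rwa [map_mul, h2, mul_one, map_one] at this
  intro i j
  refine ⟨h1 i j, ?_⟩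
  fin_cases i <;> fin_cases j
  · change v ((g⁻¹ : GL (Fin 2) F) 0 0) ≤ 1
    rw [h00, map_mul, hvd, one_mul]; exact h1 _ _
  · change v ((g⁻¹ : GL (Fin 2) F) 0 1) ≤ 1
    rw [h01, Valuation.map_neg, map_mul, hvd, one_mul]; exact h1 _ _
  · change v ((g⁻¹ : GL (Fin 2) F) 1 0) ≤ 1
    rw [h10, Valuation.map_neg, map_mul, hvd, one_mul]; exact h1 _ _
  · change v ((g⁻¹ : GL (Fin 2) F) 1 1) ≤ 1
    rw [h11, map_mul, hvd, one_mul]; exact h1 _ _

/-- the Iwahori subgroup as a subgroup -/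
def IwS : Subgroup (GL (Fin 2) F) where
  carrier := Iw v
  one_mem' := ⟨(GO v).one_mem, by simp⟩
  mul_mem' := by
    rintro g h ⟨hg, hg'⟩ ⟨hh, hh'⟩
    refine ⟨(GO v).mul_mem hg hh, ?_⟩
    rw [Units.val_mul, Matrix.mul_apply, Fin.sum_univ_two]
    refine v.map_add_lt ?_ ?_ <;> rw [map_mul]
    · exact (mul_le_of_le_one_right' (hh _ _).1).trans_lt hg'
    · exact (mul_le_of_le_one_left' (hg _ _).1).trans_lt hh'
  inv_mem' := by
    rintro g ⟨hg, hg'⟩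
    refine ⟨(GO v).inv_mem hg, ?_⟩
    obtain ⟨d, hd, h00, h01, h10, h11⟩ := inv_entries g
    have hvd : v d = 1 := by
      have := congrArg v hd
      rwa [map_mul, GO_det v hg, mul_one, map_one] at this
    rw [h10, Valuation.map_neg, map_mul, hvd, one_mul]
    exact hg'

lemma mem_IwS {g : GL (Fin 2) F} : g ∈ IwS v ↔ g ∈ Iw v := Iff.rfl

end val

end Pool.Agent.T2h09.LL
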