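import Pool.Agent.T2h09.LL.CF1

/-!
# The cusp form of `S_CF`: the double coset of the Iwahori subgroup (helper9)
-/

set_option autoImplicit false

noncomputable section

open scoped Polynomial WithZero
open IsDedekindDomain WithZero
open Pool.Agent.T2h66.LL

namespace Pool.Agent.T2h09.LL

/-- `GL_2(A) → GL_2(K)` -/
def cK : GL (Fin 2) A →* GL (Fin 2) K := Matrix.GeneralLinearGroup.map (algebraMap A K)

/-- `GL_2(A) → GL_2(Af)` -/
def cF : GL (Fin 2) A →* GL (Fin 2) Af := Matrix.GeneralLinearGroup.map aF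

/-- `GL_2(A) → GL_2(Ki)` -/
def cI : GL (Fin 2) A →* GL (Fin 2) Ki := Matrix.GeneralLinearGroup.map aI

lemma diagK_cK (δ : GL (Fin 2) A) : diagK (cK δ) = (cF δ, cI δ) := by
  refine Prod.ext ?_ ?_ <;> · ext i j; rfl

lemma cI_apply (δ : GL (Fin 2) A) (i j : Fin 2) : cI δ i j = aI (δ i j) := rfl

lemma cF_apply (δ : GL (Fin 2) A) (i j : Fin 2) : cF δ i j = aF (δ i j) := rfl

lemma aF_le (a : A) (v : Pl) : Valued.v (aF a v) ≤ 1 := by
  have h : Valued.v (aF a v) = v.valuation K (algebraMap A K a) :=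
    HeightOneSpectrum.valuedAdicCompletion_eq_valuation' v (algebraMap A K a)
  rw [h]
  exact v.valuation_le_one a

lemma cF_mem (δ : GL (Fin 2) A) : cF δ ∈ Kf := by
  intro v i j
  refine ⟨aF_le (δ i j) v, ?_⟩
  rw [← map_inv]
  exact aF_le _ v

lemma unit_A {a b : A} (h : a * b = 1) : a = 1 := by
  have h1 : IsUnit a := IsUnit.of_mul_eq_one b h
  obtain ⟨r, hr, rfl⟩ := Polynomial.isUnit_iff.1 h1
  have : r = 1 := by
    have h2 : ∀ r : ZMod 2, IsUnit r → r = 1 := by decide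
    exact h2 r hr
  rw [this, map_one]

lemma det_A (δ : GL (Fin 2) A) : δ 0 0 * δ 1 1 - δ 0 1 * δ 1 0 = 1 := by
  obtain ⟨d, hd, -⟩ := inv_entries δ
  exact unit_A ((mul_comm _ _).trans hd)

/-- an element of `GL_2(K)` in `GL_2(Ô)` is in `GL_2(A)` -/
lemma lift_A (hIN : S_IN) (ε : GL (Fin 2) K)
    (h : Matrix.GeneralLinearGroup.map (algebraMap K Af) ε ∈ Kf) : ∃ δ : GL (Fin 2) A, cK δ = ε := by
  have h1 : ∀ i j, ∃ a : A, algebraMap A K a = ε i j := fun i j => hIN _ fun v => (h v i j).1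
  have h2 : ∀ i j, ∃ a : A, algebraMap A K a = (ε⁻¹ : GL (Fin 2) K) i j := by
    intro i j
    refine hIN _ fun v => ?_
    have := (h v i j).2
    rw [← map_inv] at this
    exact this
  choose M hM using h1
  choose N hN using h2
  have hinj : Function.Injective (algebraMap A K) := IsFractionRing.injective A K
  have hMN : Matrix.of M * Matrix.of N = 1 := by
    refine Matrix.ext fun i j => ?_
    apply hinj
    have h3 : (ε * ε⁻¹ : GL (Fin 2) K) i j = (1 : Matrix (Fin 2) (Fin 2) K) i j := by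
      rw [mul_inv_cancel]; rfl
    rw [Units.val_mul, Matrix.mul_apply] at h3
    rw [Matrix.mul_apply, map_sum]
    simp only [Matrix.of_apply, map_mul, hM, hN]
    rw [h3]
    by_cases hij : i = j
    · subst hij; simp
    · simp [Matrix.one_apply_ne hij]
  have hNM : Matrix.of N * Matrix.of M = 1 := by
    refine Matrix.ext fun i j => ?_
    apply hinj
    have h3 : (ε⁻¹ * ε : GL (Fin 2) K) i j = (1 : Matrix (Fin 2) (Fin 2) K) i j := by
      rw [inv_mul_cancel]; rfl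
    rw [Units.val_mul, Matrix.mul_apply] at h3
    rw [Matrix.mul_apply, map_sum]
    simp only [Matrix.of_apply, map_mul, hM, hN]
    rw [h3]
    by_cases hij : i = j
    · subst hij; simp
    · simp [Matrix.one_apply_ne hij]
  refine ⟨⟨Matrix.of M, Matrix.of N, hMN, hNM⟩, ?_⟩
  ext i j
  exact hM i j

abbrev vI : Valuation Ki ℤᵐ⁰ := Valued.v

lemma val_aI_ge (hIF : S_IF) (a : A) (h : vI (aI a) < 1) : a = 0 := by
  by_contra h0
  rw [hIF.2.2.2 a h0] at h
  have : (1 : ℤᵐ⁰) ≤ exp ((a.natDegree : ℕ) : ℤ) := by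
    rw [← exp_zero, exp_le_exp]
    exact Int.natCast_nonneg _
  exact absurd h (not_lt.2 this)

lemma val_aI_le (hIF : S_IF) (a : A) (h : vI (aI a) ≤ 1) : a = 0 ∨ a = 1 := by
  by_cases h0 : a = 0
  · exact Or.inl h0
  right
  rw [hIF.2.2.2 a h0, ← exp_zero, exp_le_exp] at h
  have h1 : a.natDegree = 0 := by omega
  rw [Polynomial.eq_C_of_natDegree_eq_zero h1] at h0 ⊢
  have h2 : ∀ r : ZMod 2, r ≠ 0 → r = 1 := by decide
  rw [h2 (a.coeff 0) fun h => h0 (by rw [h, map_zero]), map_one]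

/-- an element of `GL_2(A)` in `Iw·sc` is `1` or `(1 1; 0 1)` -/
lemma A_Iw (hIF : S_IF) (δ : GL (Fin 2) A) (u : GL (Fin 2) Ki) (hu : u ∈ Iw vI) (z : Kiˣ)
    (h : cI δ = u * sc z) : δ = 1 ∨ δ = nU 1 := by
  have hent : ∀ i j, aI (δ i j) = u i j * (z : Ki) := by
    intro i j
    rw [← cI_apply, h, mul_sc_apply]
  have hdet := congrArg aI (det_A δ)
  have hz : vI (z : Ki) = 1 := by
    rw [map_sub, map_mul, map_mul, hent, hent, hent, hent, map_one] at hdet
    have h1 : (u 0 0 * u 1 1 - u 0 1 * u 1 0) * ((z : Ki) * z) = 1 := by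
      linear_combination hdet
    have h2 := congrArg vI h1
    rw [map_mul, GO_det _ hu.1, one_mul, map_mul, map_one] at h2
    rcases lt_trichotomy (vI (z : Ki)) 1 with h3 | h3 | h3
    · exfalso
      exact absurd h2 (ne_of_lt ((mul_le_of_le_one_left' h3.le).trans_lt h3))
    · exact h3
    · exfalso
      exact absurd h2.symm (ne_of_lt (h3.trans_le (le_mul_of_one_le_left' h3.le)))
  have hv : ∀ i j, vI (aI (δ i j)) = vI (u i j) := by
    intro i j
    rw [hent, map_mul, hz, mul_one]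
  have h10 : δ 1 0 = 0 := val_aI_ge hIF _ (by rw [hv]; exact hu.2)
  have hd := det_A δ
  rw [h10, mul_zero, sub_zero] at hd
  have h00 : δ 0 0 = 1 := unit_A hd
  have h11 : δ 1 1 = 1 := by rw [h00, one_mul] at hd; exact hd
  rcases val_aI_le hIF (δ 0 1) (by rw [hv]; exact (hu.1 0 1).1) with h01 | h01
  · left
    refine Matrix.GeneralLinearGroup.ext fun i j => ?_
    fin_cases i <;> fin_cases j
    · exact h00
    · exact h01
    · exact h10
    · exact h11
  · right
    refine Matrix.GeneralLinearGroup.ext fun i j => ?_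
    fin_cases i <;> fin_cases j
    · exact h00
    · exact h01
    · exact h10
    · exact h11

/-- `g` is in the double coset of `(k, Iw·sc)` -/
def Dd (g : GA) (k : GL (Fin 2) Af) : Prop :=
  ∃ (γ : GL (Fin 2) K) (u : GL (Fin 2) Ki) (z : Kiˣ), u ∈ Iw vI ∧ k ∈ Kf ∧
    g = diagK γ * (k, u * sc z)

lemma Dd_unique (hIN : S_IN) (hIF : S_IF) (c : GL (Fin 2) Af → ℂ)
    (hc : ∀ k ∈ Kf, c (nU 1 * k) = c k) {g : GA} {k k' : GL (Fin 2) Af} (h : Dd g k)
    (h' : Dd g k') : c k = c k' := by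
  obtain ⟨γ, u, z, hu, hk, h⟩ := h
  obtain ⟨γ', u', z', hu', hk', h'⟩ := h'
  rw [h] at h'
  have h1 : diagK (γ'⁻¹ * γ) * (k, u * sc z) = (k', u' * sc z') := by
    rw [map_mul, mul_assoc, h', ← mul_assoc, ← map_mul, inv_mul_cancel, map_one, one_mul]
  have h2 : Matrix.GeneralLinearGroup.map (algebraMap K Af) (γ'⁻¹ * γ) * k = k' :=
    congrArg Prod.fst h1
  have h3 : Matrix.GeneralLinearGroup.map (algebraMap K Ki) (γ'⁻¹ * γ) * (u * sc z)
      = u' * sc z' := congrArg Prod.snd h1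
  obtain ⟨δ, hδ⟩ := lift_A hIN (γ'⁻¹ * γ) (by
    rw [eq_mul_inv_of_mul_eq h2]
    exact Kf.mul_mem hk' (Kf.inv_mem hk))
  have h4 : cF δ * k = k' := by
    rw [← h2, ← hδ]
    congr 1
  have h5 : cI δ * (u * sc z) = u' * sc z' := by
    rw [← h3, ← hδ]
    congr 1
  have h6 : cI δ = (u' * u⁻¹) * sc (z' * z⁻¹) := by
    rw [eq_mul_inv_of_mul_eq h5, mul_inv_rev, sc_inv, mul_assoc u', ← mul_assoc (sc z'), sc_mul,
      ← sc_comm u⁻¹, ← mul_assoc]
  rcases A_Iw hIF δ _ ((IwS vI).mul_mem hu' ((IwS vI).inv_mem hu)) _ h6 with h7 | h7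
  · rw [← h4, h7, map_one, one_mul]
  · rw [← h4, h7]
    have : cF (nU 1) = nU 1 := by
      rw [cF, map_nU, map_one]
    rw [this, hc k hk]

end Pool.Agent.T2h09.LL
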