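import Pool.Agent.T2h09.LL.CF2

/-!
# The cusp form of `S_CF`: reduction modulo the uniformizer, the function `f1` (helper9)
-/

set_option autoImplicit false

noncomputable section

open scoped Polynomial WithZero
open IsDedekindDomain WithZero
open Pool.Agent.T2h66.LL

namespace Pool.Agent.T2h09.LL

/-! ### matrices congruent to `1` -/

section val

variable {F : Type} [Field F] (v : Valuation F ℤᵐ⁰)

/-- the matrices in `GL_2(O)` which are `1` modulo the maximal ideal -/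
def P1 : Set (GL (Fin 2) F) :=
  {g | g ∈ GO v ∧ ∀ i j, v (g i j - (1 : Matrix (Fin 2) (Fin 2) F) i j) < 1}

lemma entries_lt {M N : Matrix (Fin 2) (Fin 2) F} (hM : ∀ i j, v (M i j) ≤ 1)
    (hN : ∀ i j, v (N i j) < 1) (i j : Fin 2) : v ((M * N) i j) < 1 := by
  rw [Matrix.mul_apply, Fin.sum_univ_two]
  refine v.map_add_lt ?_ ?_ <;> rw [map_mul] <;>
    exact (mul_le_of_le_one_left' (hM _ _)).trans_lt (hN _ _)

lemma entries_lt' {M N : Matrix (Fin 2) (Fin 2) F} (hM : ∀ i j, v (M i j) < 1)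
    (hN : ∀ i j, v (N i j) ≤ 1) (i j : Fin 2) : v ((M * N) i j) < 1 := by
  rw [Matrix.mul_apply, Fin.sum_univ_two]
  refine v.map_add_lt ?_ ?_ <;> rw [map_mul] <;>
    exact (mul_le_of_le_one_right' (hN _ _)).trans_lt (hM _ _)

lemma P1_conj {h κ : GL (Fin 2) F} (hh : h ∈ P1 v) (hκ : κ ∈ GO v) : κ⁻¹ * h * κ ∈ P1 v := by
  refine ⟨(GO v).mul_mem ((GO v).mul_mem ((GO v).inv_mem hκ) hh.1) hκ, fun i j => ?_⟩
  have h1 : ((κ⁻¹ * h * κ : GL (Fin 2) F) : Matrix (Fin 2) (Fin 2) F) - 1 =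
      (κ⁻¹ : GL (Fin 2) F) * ((h : Matrix (Fin 2) (Fin 2) F) - 1) * κ := by
    rw [mul_sub, sub_mul, mul_one, ← Units.val_mul κ⁻¹ κ, inv_mul_cancel, Units.val_one,
      Units.val_mul, Units.val_mul]
  have h2 := entries_lt' v (entries_lt v (fun i j => (hκ i j).2) hh.2) (fun i j => (hκ i j).1) i j
  change v ((((κ⁻¹ * h * κ : GL (Fin 2) F) : Matrix (Fin 2) (Fin 2) F) - 1) i j) < 1
  rw [h1]
  exact h2

lemma P1_Iw {h : GL (Fin 2) F} (hh : h ∈ P1 v) : h ∈ Iw v := by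
  refine ⟨hh.1, ?_⟩
  have := hh.2 1 0
  simpa using this

end val

/-- `GL_2(F_2) → GL_2(A)` -/
def cC : GL (Fin 2) (ZMod 2) →* GL (Fin 2) A := Matrix.GeneralLinearGroup.map Polynomial.C

lemma aI_C (r : ZMod 2) : vI (aI (Polynomial.C r)) ≤ 1 := by
  have h : ∀ r : ZMod 2, r = 0 ∨ r = 1 := by decide
  rcases h r with h | h <;> subst h <;> simp

lemma cIC_mem (δ : GL (Fin 2) (ZMod 2)) : cI (cC δ) ∈ GO vI := by
  intro i j
  refine ⟨aI_C _, ?_⟩
  rw [← map_inv, ← map_inv]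
  exact aI_C _

/-- reduction modulo the maximal ideal -/
def rd (x : Ki) : ZMod 2 := if vI x < 1 then 0 else 1

lemma rd_spec (hIF : S_IF) {x : Ki} (hx : vI x ≤ 1) : vI (x - aI (Polynomial.C (rd x))) < 1 := by
  unfold rd
  split_ifs with h
  · simpa using h
  · rw [map_one, map_one]
    exact hIF.2.1 x (le_antisymm hx (not_lt.1 h))

lemma reduce (hIF : S_IF) {h : GL (Fin 2) Ki} (hh : h ∈ GO vI) :
    ∃ δ : GL (Fin 2) (ZMod 2), (cI (cC δ))⁻¹ * h ∈ P1 vI := by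
  have hM : ∀ i j, vI (h i j - aI (Polynomial.C (rd (h i j)))) < 1 := fun i j =>
    rd_spec hIF (hh i j).1
  have hdet : rd (h 0 0) * rd (h 1 1) - rd (h 0 1) * rd (h 1 0) ≠ 0 := by
    intro h0
    have h1 := congrArg (fun r => aI (Polynomial.C r)) h0
    simp only [map_sub, map_mul, map_zero] at h1
    have h2 := GO_det vI hh
    have h3 : h 0 0 * h 1 1 - h 0 1 * h 1 0 =
        (h 0 0 - aI (Polynomial.C (rd (h 0 0)))) * h 1 1 +
        aI (Polynomial.C (rd (h 0 0))) * (h 1 1 - aI (Polynomial.C (rd (h 1 1)))) -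
        ((h 0 1 - aI (Polynomial.C (rd (h 0 1)))) * h 1 0 +
        aI (Polynomial.C (rd (h 0 1))) * (h 1 0 - aI (Polynomial.C (rd (h 1 0))))) := by
      linear_combination h1
    rw [h3] at h2
    have h4 : ∀ a b c d : Ki, vI a < 1 → vI b ≤ 1 → vI c ≤ 1 → vI d < 1 →
        vI (a * b + c * d) < 1 := by
      intro a b c d ha hb hc hd
      refine vI.map_add_lt ?_ ?_ <;> rw [map_mul]
      · exact (mul_le_of_le_one_right' hb).trans_lt ha
      · exact (mul_le_of_le_one_left' hc).trans_lt hd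
    have h5 := h4 _ _ _ _ (hM 0 0) (hh 1 1).1 (aI_C (rd (h 0 0))) (hM 1 1)
    have h6 := h4 _ _ _ _ (hM 0 1) (hh 1 0).1 (aI_C (rd (h 0 1))) (hM 1 0)
    have h7 := (vI.map_sub _ _).trans_lt (max_lt h5 h6)
    rw [h2] at h7
    exact absurd h7 (lt_irrefl _)
  let M : Matrix (Fin 2) (Fin 2) (ZMod 2) := Matrix.of fun i j => rd (h i j)
  have hMd : M.det ≠ 0 := by
    rw [Matrix.det_fin_two]
    exact hdet
  refine ⟨Matrix.GeneralLinearGroup.mkOfDetNeZero M hMd, ?_⟩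
  set D := cI (cC (Matrix.GeneralLinearGroup.mkOfDetNeZero M hMd)) with hD
  have hDij : ∀ i j, D i j = aI (Polynomial.C (rd (h i j))) := fun i j => rfl
  have hDm : D ∈ GO vI := cIC_mem _
  refine ⟨(GO vI).mul_mem ((GO vI).inv_mem hDm) hh, fun i j => ?_⟩
  have h1 : ((D⁻¹ * h : GL (Fin 2) Ki) : Matrix (Fin 2) (Fin 2) Ki) - 1 =
      (D⁻¹ : GL (Fin 2) Ki) * ((h : Matrix (Fin 2) (Fin 2) Ki) - D) := by
    rw [mul_sub, ← Units.val_mul D⁻¹ D, inv_mul_cancel, Units.val_one, Units.val_mul]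
  change vI ((((D⁻¹ * h : GL (Fin 2) Ki) : Matrix (Fin 2) (Fin 2) Ki) - 1) i j) < 1
  rw [h1]
  refine entries_lt vI (fun i j => (hDm i j).2) (fun i j => ?_) i j
  rw [Matrix.sub_apply, hDij]
  exact hM i j

/-! ### the function `f1` -/

variable (c : GL (Fin 2) Af → ℂ)

/-- the function on `GL_2(K) \ GL_2(𝔸)` supported on the double coset of `(Kf, Iw·sc)` -/
def f1 (g : GA) : ℂ := by
  classical
  exact if h : ∃ k, Dd g k then c h.choose else 0

lemma f1_eq (hIN : S_IN) (hIF : S_IF) (hc : ∀ k ∈ Kf, c (nU 1 * k) = c k) {g : GA}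
    {k : GL (Fin 2) Af} (h : Dd g k) : f1 c g = c k := by
  have hex : ∃ k, Dd g k := ⟨k, h⟩
  rw [f1, dif_pos hex]
  exact Dd_unique hIN hIF c hc hex.choose_spec h

lemma f1_zero {g : GA} (h : ∀ k, ¬ Dd g k) : f1 c g = 0 := by
  rw [f1, dif_neg (not_exists.2 h)]

lemma f1_congr {g g' : GA} (h : ∀ k, Dd g k ↔ Dd g' k) : f1 c g = f1 c g' := by
  have : Dd g = Dd g' := funext fun k => propext (h k)
  unfold f1
  rw [this]

lemma Dd_left (γ : GL (Fin 2) K) (g : GA) (k : GL (Fin 2) Af) : Dd (diagK γ * g) k ↔ Dd g k := by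
  constructor
  · rintro ⟨γ', u, z, hu, hk, h⟩
    refine ⟨γ⁻¹ * γ', u, z, hu, hk, ?_⟩
    rw [map_mul, mul_assoc, ← h, ← mul_assoc, ← map_mul, inv_mul_cancel, map_one, one_mul]
  · rintro ⟨γ', u, z, hu, hk, h⟩
    exact ⟨γ * γ', u, z, hu, hk, by rw [h, map_mul, mul_assoc]⟩

lemma f1_left (γ : GL (Fin 2) K) (g : GA) : f1 c (diagK γ * g) = f1 c g :=
  f1_congr c (Dd_left γ g)

lemma atI_eq (h : GL (Fin 2) Ki) : atI h = ((1, h) : GA) := rfl

lemma pmul (a b : GL (Fin 2) Af) (x y : GL (Fin 2) Ki) : ((a, x) * (b, y) : GA) = (a * b, x * y) :=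
  rfl

lemma Dd_right {w : GL (Fin 2) Ki} (hw : w ∈ Iw vI) (y : Kiˣ) (g : GA) (k : GL (Fin 2) Af) :
    Dd (g * atI (w * sc y)) k ↔ Dd g k := by
  have key : ∀ (w : GL (Fin 2) Ki) (_ : w ∈ Iw vI) (y : Kiˣ) (g : GA), Dd g k →
      Dd (g * atI (w * sc y)) k := by
    rintro w hw y g ⟨γ, u, z, hu, hk, h⟩
    refine ⟨γ, u * w, z * y, (IwS vI).mul_mem hu hw, hk, ?_⟩
    rw [h, mul_assoc, atI_eq, pmul k 1, mul_one, ← sc_mul]
    congr 2
    rw [mul_assoc, ← mul_assoc (sc z), ← sc_comm w, mul_assoc, mul_assoc]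
  refine ⟨fun h => ?_, key w hw y g⟩
  have h1 := key w⁻¹ ((IwS vI).inv_mem hw) y⁻¹ _ h
  have h2 : g * atI (w * sc y) * atI (w⁻¹ * sc y⁻¹) = g := by
    rw [mul_assoc, ← map_mul]
    have : w * sc y * (w⁻¹ * sc y⁻¹) = 1 := by
      rw [sc_comm w⁻¹, mul_assoc, ← mul_assoc (sc y), sc_mul, mul_inv_cancel, sc_one, one_mul,
        mul_inv_cancel]
    rw [this, map_one, mul_one]
  rwa [h2] at h1

lemma f1_right {w : GL (Fin 2) Ki} (hw : w ∈ Iw vI) (y : Kiˣ) (g : GA) :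
    f1 c (g * atI (w * sc y)) = f1 c g := f1_congr c (Dd_right hw y g)

lemma f1_Iw {w : GL (Fin 2) Ki} (hw : w ∈ Iw vI) (g : GA) :
    f1 c (g * atI w) = f1 c g := by
  have := f1_right c hw 1 g
  rwa [sc_one, mul_one] at this

lemma f1_sc (y : Kiˣ) (g : GA) : f1 c (g * atI (sc y)) = f1 c g := by
  have := f1_right c (IwS vI).one_mem y g
  rwa [one_mul] at this

lemma f1_kf (hIN : S_IN) (hIF : S_IF) (hc : ∀ k ∈ Kf, c (nU 1 * k) = c k) (s : ℂ)
    {κ : GL (Fin 2) Af} (hκ : κ ∈ Kf) (hs : ∀ k ∈ Kf, c (k * κ) = s * c k) (g : GA) :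
    f1 c (g * (κ, 1)) = s * f1 c g := by
  by_cases h : ∃ k, Dd g k
  · obtain ⟨k, h⟩ := h
    have h1 : Dd (g * (κ, 1)) (k * κ) := by
      obtain ⟨γ, u, z, hu, hk, h⟩ := h
      refine ⟨γ, u, z, hu, Kf.mul_mem hk hκ, ?_⟩
      rw [h, mul_assoc, pmul k κ, mul_one]
    rw [f1_eq c hIN hIF hc h, f1_eq c hIN hIF hc h1]
    exact hs k (by obtain ⟨γ, u, z, hu, hk, h⟩ := h; exact hk)
  · push Not at h
    rw [f1_zero c h, mul_zero]
    apply f1_zero
    intro k hk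
    refine h (k * κ⁻¹) ?_
    obtain ⟨γ, u, z, hu, hk, h⟩ := hk
    refine ⟨γ, u, z, hu, Kf.mul_mem hk (Kf.inv_mem hκ), ?_⟩
    have h2 : g = (g * (κ, 1)) * (κ⁻¹, 1) := by
      have : ((κ, 1) * (κ⁻¹, 1) : GA) = 1 := by
        rw [pmul, mul_inv_cancel, mul_one]; rfl
      rw [mul_assoc, this, mul_one]
    rw [h2, h, mul_assoc, pmul k κ⁻¹, mul_one]

end Pool.Agent.T2h09.LL
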