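import Pool.Agent.T2h09.LL.CF3

/-!
# The cusp form of `S_CF`: the two sum relations (helper9)
-/

set_option autoImplicit false

noncomputable section

open scoped Polynomial WithZero
open IsDedekindDomain WithZero
open Pool.Agent.T2h66.LL

namespace Pool.Agent.T2h09.LL

lemma shift (γ : GL (Fin 2) K) (k : GL (Fin 2) Af) (x : GL (Fin 2) Ki) (δ : GL (Fin 2) A) :
    (diagK γ * (k, x) : GA) = diagK (γ * cK δ) * ((cF δ)⁻¹ * k, (cI δ)⁻¹ * x) := by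
  rw [map_mul, diagK_cK, mul_assoc, pmul (cF δ) ((cF δ)⁻¹ * k), mul_inv_cancel_left,
    mul_inv_cancel_left]

variable (c : GL (Fin 2) Af → ℂ)

/-- `g` is in the double coset of `(Kf, GO·sc)` -/
def Eo (g : GA) : Prop := ∃ (γ : GL (Fin 2) K) (k : GL (Fin 2) Af) (h : GL (Fin 2) Ki) (z : Kiˣ),
  k ∈ Kf ∧ h ∈ GO vI ∧ g = diagK γ * (k, h * sc z)

lemma not_Eo {g : GA} (hg : ¬ Eo g) {κ : GL (Fin 2) Ki} (hκ : κ ∈ GO vI) :
    f1 c (g * atI κ) = 0 := by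
  apply f1_zero
  rintro k ⟨γ, u, z, hu, hk, h⟩
  apply hg
  refine ⟨γ, k, u * κ⁻¹, z, hk, (GO vI).mul_mem hu.1 ((GO vI).inv_mem hκ), ?_⟩
  have h1 : g = (g * atI κ) * atI κ⁻¹ := by
    rw [mul_assoc, ← map_mul, mul_inv_cancel, map_one, mul_one]
  rw [h1, h, mul_assoc, atI_eq, pmul k 1, mul_one, mul_assoc, ← sc_comm κ⁻¹, ← mul_assoc]

/-- a case of the double coset -/
lemma key1 (hIN : S_IN) (hIF : S_IF) (hc : ∀ k ∈ Kf, c (nU 1 * k) = c k)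
    (γ : GL (Fin 2) K) {k : GL (Fin 2) Af} (hk : k ∈ Kf) {h : GL (Fin 2) Ki} (z : Kiˣ)
    (δ : GL (Fin 2) (ZMod 2)) (hδ : (cI (cC δ))⁻¹ * h ∈ P1 vI) (κ : GL (Fin 2) (ZMod 2)) :
    f1 c (diagK γ * (k, h * sc z) * atI (cI (cC κ))) =
      c ((cF (cC κ))⁻¹ * ((cF (cC δ))⁻¹ * k)) := by
  refine f1_eq c hIN hIF hc ⟨γ * cK (cC δ * cC κ),
    (cI (cC κ))⁻¹ * ((cI (cC δ))⁻¹ * h) * cI (cC κ), z, P1_Iw _ (P1_conj _ hδ (cIC_mem κ)),
    Kf.mul_mem (Kf.inv_mem (cF_mem _)) (Kf.mul_mem (Kf.inv_mem (cF_mem _)) hk), ?_⟩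
  rw [mul_assoc (diagK γ), atI_eq, pmul k 1, mul_one, shift γ _ _ (cC δ * cC κ)]
  congr 2
  · rw [map_mul, mul_inv_rev, mul_assoc]
  · rw [map_mul, mul_inv_rev, mul_assoc h, ← sc_comm (cI (cC κ))]
    simp only [mul_assoc]

lemma cIC_om : cI (cC om) = om := by rw [cC, map_om, cI, map_om]
lemma cFC_om : cF (cC om) = om := by rw [cC, map_om, cF, map_om]
lemma cIC_nU : cI (cC (nU 1)) = nU 1 := by rw [cC, map_nU, cI, map_nU, map_one, map_one]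
lemma cFC_nU : cF (cC (nU 1)) = nU 1 := by rw [cC, map_nU, cF, map_nU, map_one, map_one]

lemma inv_no : ((nU 1 * om : GL (Fin 2) (ZMod 2)))⁻¹ = om * nU 1 := by
  rw [mul_inv_rev, om_inv, nU_inv]
  congr 1

lemma cIC_no : cI (cC (nU 1 * om)) = nU 1 * om := by
  rw [map_mul, map_mul, cIC_om, cIC_nU]

lemma cFC_no : (cF (cC (nU 1 * om)))⁻¹ = om * nU 1 := by
  rw [← map_inv, ← map_inv, inv_no, map_mul, map_mul, cFC_om, cFC_nU]

lemma sum1 (hIN : S_IN) (hIF : S_IF) (hc : ∀ k ∈ Kf, c (nU 1 * k) = c k)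
    (hc3 : ∀ k ∈ Kf, c k + c (om * k) + c (om * nU 1 * k) = 0) (g : GA) :
    f1 c g + f1 c (g * atI om) + f1 c (g * atI (nU 1 * om)) = 0 := by
  by_cases h : Eo g
  · obtain ⟨γ, k, h, z, hk, hh, rfl⟩ := h
    obtain ⟨δ, hδ⟩ := reduce hIF hh
    have h0 := key1 c hIN hIF hc γ hk z δ hδ 1
    have h1 := key1 c hIN hIF hc γ hk z δ hδ om
    have h2 := key1 c hIN hIF hc γ hk z δ hδ (nU 1 * om)
    rw [map_one, map_one, map_one, mul_one, map_one, inv_one, one_mul] at h0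
    rw [cIC_om, cFC_om, om_inv] at h1
    rw [cIC_no, cFC_no] at h2
    rw [h0, h1, h2]
    exact hc3 _ (Kf.mul_mem (Kf.inv_mem (cF_mem _)) hk)
  · have h0 := not_Eo c h (GO vI).one_mem
    rw [map_one, mul_one] at h0
    have hom : (om : GL (Fin 2) Ki) ∈ GO vI := by
      rw [← cIC_om]; exact cIC_mem _
    have hnU : (nU 1 : GL (Fin 2) Ki) ∈ GO vI := by
      rw [← cIC_nU]; exact cIC_mem _
    rw [h0, not_Eo c h hom, not_Eo c h ((GO vI).mul_mem hnU hom)]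
    norm_num

/-! ### the second sum -/

/-- `om * da pI` -/
def ww : GL (Fin 2) Ki := om * da pI

lemma da_mul {R : Type} [CommRing R] (a b : Rˣ) : da a * da b = da (a * b) := by
  ext i j
  fin_cases i <;> fin_cases j <;> simp [da_val, Matrix.mul_apply, Fin.sum_univ_two]

lemma da_one {R : Type} [CommRing R] : da (1 : Rˣ) = 1 := by
  ext i j
  fin_cases i <;> fin_cases j <;> simp [da_val]

lemma da_inv {R : Type} [CommRing R] (a : Rˣ) : (da a)⁻¹ = da a⁻¹ := by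
  apply inv_eq_of_mul_eq_one_left
  rw [da_mul, inv_mul_cancel, da_one]

lemma ww_sq : ww * ww = sc pI := by
  ext i j
  fin_cases i <;> fin_cases j <;>
    simp [ww, sc_val, om_val, da_val, Matrix.mul_apply, Fin.sum_univ_two]

lemma ww_conj (u : GL (Fin 2) Ki) : ww * u * ww⁻¹ = ww⁻¹ * u * ww := by
  have h : ww * ww * u = u * (ww * ww) := by rw [ww_sq, sc_comm]
  have h1 : ww * u * ww⁻¹ = ww⁻¹ * (ww * ww * u) * ww⁻¹ := by group
  rw [h1, h]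
  group

lemma ww_ent (u : GL (Fin 2) Ki) : (ww⁻¹ * u * ww : GL (Fin 2) Ki) 0 0 = u 1 1 ∧
    (ww⁻¹ * u * ww : GL (Fin 2) Ki) 0 1 = u 1 0 * ((pI⁻¹ : Kiˣ) : Ki) ∧
    (ww⁻¹ * u * ww : GL (Fin 2) Ki) 1 0 = u 0 1 * (pI : Ki) ∧
    (ww⁻¹ * u * ww : GL (Fin 2) Ki) 1 1 = u 0 0 := by
  have h1 : ww⁻¹ = da pI⁻¹ * om := by rw [ww, mul_inv_rev, om_inv, da_inv]
  have h2 : ∀ i j, (ww⁻¹ * u * ww : GL (Fin 2) Ki) i j =
      (((!![((pI⁻¹ : Kiˣ) : Ki), 0; 0, 1] * !![0, 1; 1, 0] : Matrix (Fin 2) (Fin 2) Ki) *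
        (u : Matrix (Fin 2) (Fin 2) Ki) * (!![0, 1; 1, 0] * !![(pI : Ki), 0; 0, 1]) :
        Matrix (Fin 2) (Fin 2) Ki)) i j := by
    intro i j
    rw [h1]
    rfl
  rw [h2, h2, h2, h2]
  refine ⟨?_, ?_, ?_, ?_⟩ <;>
    simp [Matrix.mul_apply, Fin.sum_univ_two, Matrix.vecMul, dotProduct, mul_comm]

lemma lt_one_le {x : ℤᵐ⁰} (h : x < 1) : x ≤ exp (-1 : ℤ) := by
  rcases eq_or_ne x 0 with h0 | h0
  · rw [h0]; exact zero_le
  · rw [← exp_log h0] at h ⊢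
    rw [← exp_zero, exp_lt_exp] at h
    rw [exp_le_exp]
    omega

lemma ww_Iw (hIF : S_IF) {u : GL (Fin 2) Ki} (hu : u ∈ Iw vI) : ww⁻¹ * u * ww ∈ Iw vI := by
  obtain ⟨h00, h01, h10, h11⟩ := ww_ent u
  have hp : vI (pI : Ki) = exp (-1 : ℤ) := hIF.1
  have hpi : vI ((pI⁻¹ : Kiˣ) : Ki) = exp (1 : ℤ) := by
    rw [Units.val_inv_eq_inv_val, map_inv₀, hp, ← exp_neg, neg_neg]
  refine ⟨(GO_iff vI).2 ⟨?_, ?_⟩, ?_⟩
  · intro i j
    fin_cases i <;> fin_cases j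
    · change vI ((ww⁻¹ * u * ww : GL (Fin 2) Ki) 0 0) ≤ 1
      rw [h00]; exact (hu.1 1 1).1
    · change vI ((ww⁻¹ * u * ww : GL (Fin 2) Ki) 0 1) ≤ 1
      rw [h01, map_mul, hpi]
      calc vI (u 1 0) * exp (1 : ℤ) ≤ exp (-1 : ℤ) * exp (1 : ℤ) :=
            mul_le_mul_left (lt_one_le hu.2) _
        _ = 1 := by rw [← exp_add]; rfl
    · change vI ((ww⁻¹ * u * ww : GL (Fin 2) Ki) 1 0) ≤ 1
      rw [h10, map_mul, hp]
      exact (mul_le_of_le_one_left' (hu.1 0 1).1).trans (by rw [← exp_zero, exp_le_exp]; omega)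
    · change vI ((ww⁻¹ * u * ww : GL (Fin 2) Ki) 1 1) ≤ 1
      rw [h11]; exact (hu.1 0 0).1
  · rw [h00, h01, h10, h11, ← GO_det vI hu.1]
    congr 1
    have : ((pI⁻¹ : Kiˣ) : Ki) * (pI : Ki) = 1 := by rw [← Units.val_mul, inv_mul_cancel]; rfl
    linear_combination (-(u 1 0 * u 0 1)) * this
  · rw [h10, map_mul, hp]
    exact (mul_le_of_le_one_left' (hu.1 0 1).1).trans_lt
      (by rw [← exp_zero, exp_lt_exp]; omega)

lemma perm (F2 : GL (Fin 2) (ZMod 2) → ℂ) (h : ∀ τ, F2 (τ * nU 1) = F2 τ)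
    (δ : GL (Fin 2) (ZMod 2)) : F2 δ + F2 (δ * om) + F2 (δ * (nU 1 * om)) =
      F2 1 + F2 om + F2 (nU 1 * om) := by
  have hall : ∀ δ : GL (Fin 2) (ZMod 2), δ = 1 ∨ δ = nU 1 ∨ δ = om ∨ δ = nU 1 * om ∨
      δ = om * nU 1 ∨ δ = nU 1 * om * nU 1 := by decide
  have e : ∀ τ τ' : GL (Fin 2) (ZMod 2), τ = τ' * nU 1 → F2 τ = F2 τ' := fun τ τ' h' => by
    rw [h', h]
  have e' : ∀ τ τ' : GL (Fin 2) (ZMod 2), τ = τ' → F2 τ = F2 τ' := fun τ τ' h' => by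
    rw [h']
  rcases hall δ with rfl | rfl | rfl | rfl | rfl | rfl
  · rw [one_mul, one_mul]
  · rw [e (nU 1) 1 (by decide), e' (nU 1 * (nU 1 * om)) om (by decide)]
    ring
  · rw [e' (om * om) 1 (by decide), e (om * (nU 1 * om)) (nU 1 * om) (by decide)]
    ring
  · rw [e (nU 1 * om * om) 1 (by decide), e (nU 1 * om * (nU 1 * om)) om (by decide)]
    ring
  · rw [e (om * nU 1) om (by decide), e (om * nU 1 * om) (nU 1 * om) (by decide),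
      e' (om * nU 1 * (nU 1 * om)) 1 (by decide)]
    ring
  · rw [e (nU 1 * om * nU 1) (nU 1 * om) (by decide), e (nU 1 * om * nU 1 * om) om (by decide),
      e (nU 1 * om * nU 1 * (nU 1 * om)) 1 (by decide)]
    ring

end Pool.Agent.T2h09.LL
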