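import Pool.Agent.T2h09.LL.TP1

/-!
# Topology of the groups, part 2 (helper9)
-/

set_option autoImplicit false

noncomputable section

open scoped Polynomial WithZero Topology
open IsDedekindDomain WithZero
open Pool.Agent.T2h66.LL

namespace Pool.Agent.T2h09.LL

/-- matrices in `GL_2(O)` congruent to one, with the bound `b` -/
def Gb {F : Type} [Field F] (v : Valuation F ℤᵐ⁰) (b : ℤᵐ⁰) : Subgroup (GL (Fin 2) F) where
  carrier := {g | g ∈ GO v ∧ ∀ i j, v (g i j - (1 : Matrix (Fin 2) (Fin 2) F) i j) ≤ b}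
  one_mem' := ⟨(GO v).one_mem, by simp⟩
  mul_mem' := by
    rintro g h hg hh
    refine ⟨(GO v).mul_mem hg.1 hh.1, fun i j => ?_⟩
    have h1 : ((g * h : GL (Fin 2) F) : Matrix (Fin 2) (Fin 2) F) - 1 =
        ((g : Matrix (Fin 2) (Fin 2) F) - 1) * h + ((h : Matrix (Fin 2) (Fin 2) F) - 1) := by
      rw [sub_mul, one_mul, Units.val_mul]; abel
    change v ((((g * h : GL (Fin 2) F) : Matrix (Fin 2) (Fin 2) F) - 1) i j) ≤ _
    rw [h1, Matrix.add_apply, Matrix.mul_apply, Fin.sum_univ_two]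
    refine v.map_add_le (v.map_add_le ?_ ?_) (hh.2 _ _) <;> rw [map_mul] <;>
      exact (mul_le_of_le_one_right' (hh.1 _ _).1).trans (hg.2 _ _)
  inv_mem' := by
    rintro g hg
    refine ⟨(GO v).inv_mem hg.1, fun i j => ?_⟩
    have h1 : ((g⁻¹ : GL (Fin 2) F) : Matrix (Fin 2) (Fin 2) F) - 1 =
        -((g⁻¹ : GL (Fin 2) F) * ((g : Matrix (Fin 2) (Fin 2) F) - 1)) := by
      rw [mul_sub, ← Units.val_mul g⁻¹ g, inv_mul_cancel, Units.val_one, mul_one, neg_sub]
    change v ((((g⁻¹ : GL (Fin 2) F) : Matrix (Fin 2) (Fin 2) F) - 1) i j) ≤ _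
    rw [h1, Matrix.neg_apply, Valuation.map_neg, Matrix.mul_apply, Fin.sum_univ_two]
    refine v.map_add_le ?_ ?_ <;> rw [map_mul] <;>
      exact (mul_le_of_le_one_left' (hg.1 _ _).2).trans (hg.2 _ _)

lemma one_ev (v : Pl) (i j : Fin 2) :
    ((1 : Matrix (Fin 2) (Fin 2) Af) i j) v = (1 : Matrix (Fin 2) (Fin 2) (Kv v)) i j := by
  by_cases h : i = j
  · subst h; rw [Matrix.one_apply_eq, Matrix.one_apply_eq]; rfl
  · rw [Matrix.one_apply_ne h, Matrix.one_apply_ne h]; rfl

lemma Af_open : IsOpen {f : Af | ∀ v : Pl, Valued.v (f v) ≤ 1} := by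
  have h1 : ∀ v : Pl, IsOpen (v.adicCompletionIntegers K : Set (v.adicCompletion K)) :=
    fun _ => Valued.isOpen_valuationSubring _
  exact RestrictedProduct.isOpen_forall_mem h1

lemma aF_ne {N : A} (hN : N ≠ 0) : algebraMap A K N ≠ 0 :=
  (map_ne_zero_iff _ (IsFractionRing.injective A K)).2 hN

lemma aF_vne {N : A} (hN : N ≠ 0) (v : Pl) : Valued.v (aF N v) ≠ 0 := by
  have h : Valued.v (aF N v) = v.valuation K (algebraMap A K N) :=
    HeightOneSpectrum.valuedAdicCompletion_eq_valuation' v (algebraMap A K N)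
  rw [h]
  exact (Valuation.ne_zero_iff _).2 (aF_ne hN)

lemma AfN_open {N : A} (hN : N ≠ 0) :
    IsOpen {f : Af | ∀ v : Pl, Valued.v (f v) ≤ Valued.v (aF N v)} := by
  have hc : Continuous fun f : Af => algebraMap K Af (algebraMap A K N)⁻¹ * f :=
    continuous_const.mul continuous_id
  have he : {f : Af | ∀ v : Pl, Valued.v (f v) ≤ Valued.v (aF N v)} =
      (fun f : Af => algebraMap K Af (algebraMap A K N)⁻¹ * f) ⁻¹'
        {f : Af | ∀ v : Pl, Valued.v (f v) ≤ 1} := by
    ext f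
    refine forall_congr' fun v => ?_
    have h1 : Valued.v ((algebraMap K Af (algebraMap A K N)⁻¹ * f) v) =
        (Valued.v (aF N v))⁻¹ * Valued.v (f v) := by
      have h2 : (algebraMap K Af (algebraMap A K N)⁻¹ * f) v =
          (algebraMap K Af (algebraMap A K N)⁻¹ v) * f v := rfl
      rw [h2, map_mul]
      congr 1
      have h3 : Valued.v (aF N v) = v.valuation K (algebraMap A K N) :=
        HeightOneSpectrum.valuedAdicCompletion_eq_valuation' v (algebraMap A K N)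
      have h4 : Valued.v (algebraMap K Af (algebraMap A K N)⁻¹ v) =
          v.valuation K (algebraMap A K N)⁻¹ :=
        HeightOneSpectrum.valuedAdicCompletion_eq_valuation' v (algebraMap A K N)⁻¹
      rw [h3, h4, map_inv₀]
    change _ ↔ Valued.v ((algebraMap K Af (algebraMap A K N)⁻¹ * f) v) ≤ 1
    rw [h1]
    constructor
    · intro h
      calc (Valued.v (aF N v))⁻¹ * Valued.v (f v) ≤ (Valued.v (aF N v))⁻¹ * Valued.v (aF N v) :=
            mul_le_mul_right h _
        _ = 1 := inv_mul_cancel₀ (aF_vne hN v)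
    · intro h
      calc Valued.v (f v) = Valued.v (aF N v) * ((Valued.v (aF N v))⁻¹ * Valued.v (f v)) := by
            rw [mul_inv_cancel_left₀ (aF_vne hN v)]
        _ ≤ Valued.v (aF N v) * 1 := mul_le_mul_right h _
        _ = _ := mul_one _
  rw [he]
  exact Af_open.preimage hc

lemma tp3 (N : A) (hN : N ≠ 0) : ∃ U : Subgroup (GL (Fin 2) Af), IsOpen (U : Set (GL (Fin 2) Af)) ∧
    ∀ g ∈ U, g ∈ Kf ∧ ∀ (v : Pl) (i j : Fin 2),
      Valued.v ((g i j - (1 : Matrix (Fin 2) (Fin 2) Af) i j) v) ≤ Valued.v (aF N v) := by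
  let U : Subgroup (GL (Fin 2) Af) := Kf ⊓
    ⨅ v : Pl, (Gb (Valued.v : Valuation (Kv v) ℤᵐ⁰) (Valued.v (aF N v))).comap
      (Matrix.GeneralLinearGroup.map (ev v))
  have hmem : ∀ g : GL (Fin 2) Af, g ∈ U ↔ (∀ (v : Pl) (i j : Fin 2),
      Valued.v ((g i j) v) ≤ 1 ∧ Valued.v (((g⁻¹ : GL (Fin 2) Af) i j) v) ≤ 1 ∧
      Valued.v ((g i j - (1 : Matrix (Fin 2) (Fin 2) Af) i j) v) ≤ Valued.v (aF N v)) := by
    intro g
    have hs : ∀ (v : Pl) (i j : Fin 2), (g i j - (1 : Matrix (Fin 2) (Fin 2) Af) i j) v =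
        (Matrix.GeneralLinearGroup.map (ev v) g) i j - (1 : Matrix (Fin 2) (Fin 2) (Kv v)) i j := by
      intro v i j
      rw [← one_ev]
      rfl
    have hm : g ∈ U ↔ g ∈ Kf ∧ ∀ v : Pl, Matrix.GeneralLinearGroup.map (ev v) g ∈
        Gb (Valued.v : Valuation (Kv v) ℤᵐ⁰) (Valued.v (aF N v)) := by
      rw [Subgroup.mem_inf, Subgroup.mem_iInf]
      rfl
    rw [hm]
    constructor
    · rintro ⟨h1, h2⟩ v i j
      refine ⟨(h1 v i j).1, (h1 v i j).2, ?_⟩
      rw [hs]
      exact (h2 v).2 i j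
    · intro h
      refine ⟨fun v i j => ⟨(h v i j).1, (h v i j).2.1⟩, ?_⟩
      intro v
      refine ⟨fun i j => ⟨(h v i j).1, ?_⟩, fun i j => ?_⟩
      · rw [← map_inv]
        exact (h v i j).2.1
      · rw [← hs]
        exact (h v i j).2.2
  refine ⟨U, ?_, fun g hg => ⟨fun v i j => ⟨((hmem g).1 hg v i j).1, ((hmem g).1 hg v i j).2.1⟩,
    fun v i j => ((hmem g).1 hg v i j).2.2⟩⟩
  have he : (U : Set (GL (Fin 2) Af)) = ⋂ i, ⋂ j,
      ((fun g : GL (Fin 2) Af => (g i j : Af)) ⁻¹' {f : Af | ∀ v : Pl, Valued.v (f v) ≤ 1} ∩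
      (fun g : GL (Fin 2) Af => ((g⁻¹ : GL (Fin 2) Af) i j : Af)) ⁻¹'
        {f : Af | ∀ v : Pl, Valued.v (f v) ≤ 1} ∩
      (fun g : GL (Fin 2) Af => (g i j - (1 : Matrix (Fin 2) (Fin 2) Af) i j : Af)) ⁻¹'
        {f : Af | ∀ v : Pl, Valued.v (f v) ≤ Valued.v (aF N v)}) := by
    ext g
    rw [SetLike.mem_coe, hmem]
    simp only [Set.mem_iInter]
    constructor
    · intro h i j
      exact ⟨⟨fun v => (h v i j).1, fun v => (h v i j).2.1⟩, fun v => (h v i j).2.2⟩
    · intro h v i j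
      exact ⟨(h i j).1.1 v, (h i j).1.2 v, (h i j).2 v⟩
  rw [he]
  refine isOpen_iInter_of_finite fun i => isOpen_iInter_of_finite fun j => ?_
  refine ((Af_open.preimage (Units.continuous_val.matrix_elem i j)).inter
    (Af_open.preimage ((Units.continuous_val.comp continuous_inv).matrix_elem i j))).inter
    ((AfN_open hN).preimage ((Units.continuous_val.matrix_elem i j).sub continuous_const))

/-- a sequence of elements of `A` which tends to zero at all places -/
lemma exists_seq : ∃ N : ℕ → A, (∀ n, N n ≠ 0) ∧ ∀ v : Pl, ∃ m : ℕ, ∀ n ≥ m,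
    Valued.v (aF (N n) v) ≤ exp (-(n : ℤ)) := by
  have : Countable A := by
    rw [← Cardinal.mk_le_aleph0_iff]
    refine Polynomial.cardinalMk_le_max.trans (max_le ?_ le_rfl)
    exact Cardinal.mk_le_aleph0
  obtain ⟨f, hf⟩ := exists_surjective_nat A
  let b : ℕ → A := fun n => if f n = 0 then 1 else f n
  have hb : ∀ n, b n ≠ 0 := by
    intro n
    simp only [b]
    split_ifs with h
    · exact one_ne_zero
    · exact h
  refine ⟨fun n => (∏ i ∈ Finset.range n, b i) ^ n,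
    fun n => pow_ne_zero _ (Finset.prod_ne_zero_iff.2 fun i _ => hb i), fun v => ?_⟩
  obtain ⟨a, ha, ha0⟩ := Submodule.exists_mem_ne_zero_of_ne_bot v.ne_bot
  obtain ⟨m, rfl⟩ := hf a
  have hbm : b m = f m := by simp only [b]; rw [if_neg ha0]
  have hlt : Valued.v (aF (b m) v) < 1 := by
    have h : Valued.v (aF (b m) v) = v.valuation K (algebraMap A K (b m)) :=
      HeightOneSpectrum.valuedAdicCompletion_eq_valuation' v (algebraMap A K (b m))
    rw [h, hbm]
    exact (v.valuation_lt_one_iff_mem (f m)).2 ha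
  refine ⟨m + 1, fun n hn => ?_⟩
  have h1 : Valued.v (aF ((∏ i ∈ Finset.range n, b i) ^ n) v) =
      (∏ i ∈ Finset.range n, Valued.v (aF (b i) v)) ^ n := by
    have h2 : ∀ x y : A, Valued.v (aF (x * y) v) = Valued.v (aF x v) * Valued.v (aF y v) := by
      intro x y
      have e : aF (x * y) v = aF x v * aF y v := by
        rw [map_mul]
        rfl
      rw [e, map_mul]
    have h3 : Valued.v (aF 1 v) = 1 := by
      rw [map_one]
      exact map_one (Valued.v : Valuation (Kv v) ℤᵐ⁰)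
    let φ : A →* ℤᵐ⁰ := { toFun := fun x => Valued.v (aF x v), map_one' := h3, map_mul' := h2 }
    have := map_pow φ (∏ i ∈ Finset.range n, b i) n
    rw [map_prod] at this
    exact this
  rw [h1]
  have h4 : ∏ i ∈ Finset.range n, Valued.v (aF (b i) v) ≤ exp (-1 : ℤ) := by
    have hm : m ∈ Finset.range n := Finset.mem_range.2 hn
    rw [← Finset.mul_prod_erase _ _ hm]
    refine (mul_le_of_le_one_right' ?_).trans ?_
    · exact Finset.prod_le_one' fun i _ => aF_le (b i) v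
    · rcases eq_or_ne (Valued.v (aF (b m) v)) 0 with h0 | h0
      · rw [h0]; exact zero_le
      · rw [← exp_log h0] at hlt ⊢
        rw [← exp_zero, exp_lt_exp] at hlt
        rw [exp_le_exp]
        omega
  calc (∏ i ∈ Finset.range n, Valued.v (aF (b i) v)) ^ n ≤ (exp (-1 : ℤ)) ^ n :=
        pow_le_pow_left' h4 n
    _ = exp (-(n : ℤ)) := by rw [← exp_nsmul]; simp

lemma tp4 (U : AddSubgroup (Af × Ki)) (hU : IsOpen (U : Set (Af × Ki))) :
    ∃ N : A, N ≠ 0 ∧ ∃ r : ℕ, ∀ x : Af × Ki, (∀ v : Pl, Valued.v (x.1 v) ≤ Valued.v (aF N v)) →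
      Valued.v x.2 ≤ exp (-(r : ℤ)) → x ∈ U := by
  obtain ⟨N, hN0, hN⟩ := exists_seq
  by_contra hcon
  push Not at hcon
  have hex : ∀ n : ℕ, ∃ x : Af × Ki, (∀ v : Pl, Valued.v (x.1 v) ≤ Valued.v (aF (N n) v)) ∧
      Valued.v x.2 ≤ exp (-(n : ℤ)) ∧ x ∉ U := fun n => hcon (N n) (hN0 n) n
  choose x h1 h2 h3 using hex
  have e2 : Filter.Tendsto (fun n => (x n).2) Filter.atTop (𝓝 0) :=
    tendsto_of_val _ _ 0 fun n _ => by rw [sub_zero]; exact h2 n
  have hint : ∀ n (v : Pl), (x n).1 v ∈ v.adicCompletionIntegers K := fun n v =>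
    (h1 n v).trans (aF_le _ v)
  have e1 : Filter.Tendsto (fun n => (x n).1) Filter.atTop (𝓝 0) := by
    let y : ℕ → (∀ v : Pl, v.adicCompletionIntegers K) := fun n v => ⟨(x n).1 v, hint n v⟩
    have hy : Filter.Tendsto y Filter.atTop (𝓝 0) := by
      refine tendsto_pi_nhds.2 fun v => ?_
      rw [tendsto_subtype_rng]
      obtain ⟨m, hm⟩ := hN v
      refine tendsto_of_val _ _ m fun n hn => ?_
      have : ((y n v : v.adicCompletionIntegers K) : Kv v) -
          (((0 : ∀ v : Pl, v.adicCompletionIntegers K) v : v.adicCompletionIntegers K) : Kv v)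
          = (x n).1 v := by
        change (x n).1 v - 0 = _
        rw [sub_zero]
      rw [this]
      exact (h1 n v).trans (hm n hn)
    have hc := (RestrictedProduct.isEmbedding_structureMap
      (R := fun v : Pl => v.adicCompletion K)
      (A := fun v : Pl => (v.adicCompletionIntegers K : Set (v.adicCompletion K)))
      (𝓕 := Filter.cofinite)).continuous
    have := (hc.tendsto 0).comp hy
    exact this
  have h4 := (e1.prodMk_nhds e2).eventually (hU.mem_nhds U.zero_mem)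
  obtain ⟨n, hn⟩ := h4.exists
  exact h3 n hn

theorem t_TP : S_IF → S_TP := fun _ => ⟨tp1, tp2, tp3, tp4, tp5⟩

end Pool.Agent.T2h09.LL
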