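import Pool.Agent.T2h09.LL.CF2

/-!
# Topology of the groups, part 1 (helper9)
-/

set_option autoImplicit false

noncomputable section

open scoped Polynomial WithZero Topology
open IsDedekindDomain WithZero
open Pool.Agent.T2h66.LL

namespace Pool.Agent.T2h09.LL

/-! ### sequences -/

section seq

variable {F : Type} [Field F] [hv : Valued F ℤᵐ⁰]

lemma open_lt (p : F) : IsOpen {y : F | Valued.v y < Valued.v p} := by
  have h := Valued.isOpen_ball F (Valued.v.restrict p)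
  simp_rw [Valuation.restrict_lt_iff] at h
  exact h

lemma tendsto_of_val (x : ℕ → F) (a : F) (n₀ : ℕ)
    (h : ∀ n ≥ n₀, Valued.v (x n - a) ≤ exp (-(n : ℤ))) :
    Filter.Tendsto x Filter.atTop (𝓝 a) := by
  rw [Filter.tendsto_def]
  intro s hs
  rw [Valued.mem_nhds] at hs
  obtain ⟨γ, hγ⟩ := hs
  obtain ⟨k, hk⟩ : ∃ k : ℕ, exp (-(k : ℤ)) <
      MonoidWithZeroHom.ValueGroup₀.embedding γ.1 := by
    have h0 : MonoidWithZeroHom.ValueGroup₀.embedding γ.1 ≠ 0 := by
      rw [map_ne_zero]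
      exact γ.ne_zero
    refine ⟨(1 - log (MonoidWithZeroHom.ValueGroup₀.embedding γ.1)).toNat, ?_⟩
    conv_rhs => rw [← exp_log h0]
    rw [exp_lt_exp]
    omega
  refine Filter.mem_atTop_sets.2 ⟨max k n₀, fun n hn => hγ ?_⟩
  change Valued.v.restrict (x n - a) < γ.1
  rw [Valuation.restrict_lt_iff_lt_embedding]
  refine (h n (le_trans (le_max_right _ _) hn)).trans_lt (lt_of_le_of_lt ?_ hk)
  rw [exp_le_exp]
  have : k ≤ n := le_trans (le_max_left _ _) hn
  omega

end seq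

/-- convergence of sequences in `GL_2` -/
lemma tendsto_GL {R : Type} [CommRing R] [TopologicalSpace R]
    (g : ℕ → GL (Fin 2) R)
    (h1 : ∀ i j, Filter.Tendsto (fun n => g n i j) Filter.atTop
      (𝓝 ((1 : Matrix (Fin 2) (Fin 2) R) i j)))
    (h2 : ∀ i j, Filter.Tendsto (fun n => (g n)⁻¹ i j) Filter.atTop
      (𝓝 ((1 : Matrix (Fin 2) (Fin 2) R) i j))) :
    Filter.Tendsto g Filter.atTop (𝓝 1) := by
  rw [Units.isInducing_embedProduct.tendsto_nhds_iff]
  have e1 : Filter.Tendsto (fun n => ((g n : GL (Fin 2) R) : Matrix (Fin 2) (Fin 2) R))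
      Filter.atTop (𝓝 1) := by
    refine tendsto_pi_nhds.2 fun i => tendsto_pi_nhds.2 fun j => ?_
    exact h1 i j
  have e2 : Filter.Tendsto (fun n => (((g n)⁻¹ : GL (Fin 2) R) : Matrix (Fin 2) (Fin 2) R))
      Filter.atTop (𝓝 1) := by
    refine tendsto_pi_nhds.2 fun i => tendsto_pi_nhds.2 fun j => ?_
    exact h2 i j
  have e3 := (MulOpposite.continuous_op.tendsto _).comp e2
  have e4 := e1.prodMk_nhds e3
  have e5 : Units.embedProduct (Matrix (Fin 2) (Fin 2) R) 1 = (1, MulOpposite.op 1) := by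
    rw [map_one]; rfl
  rw [e5]
  exact e4

lemma Gr_inv {F : Type} [Field F] (v : Valuation F ℤᵐ⁰) (r : ℕ) {g : GL (Fin 2) F}
    (hg : g ∈ Gr v r) : g⁻¹ ∈ Gr v r := by
  refine ⟨(GO v).inv_mem hg.1, fun i j => ?_⟩
  have h1 : ((g⁻¹ : GL (Fin 2) F) : Matrix (Fin 2) (Fin 2) F) - 1 =
      -((g⁻¹ : GL (Fin 2) F) * ((g : Matrix (Fin 2) (Fin 2) F) - 1)) := by
    rw [mul_sub, ← Units.val_mul g⁻¹ g, inv_mul_cancel, Units.val_one, mul_one, neg_sub]
  change v ((((g⁻¹ : GL (Fin 2) F) : Matrix (Fin 2) (Fin 2) F) - 1) i j) ≤ _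
  rw [h1, Matrix.neg_apply, Valuation.map_neg, Matrix.mul_apply, Fin.sum_univ_two]
  refine v.map_add_le ?_ ?_ <;> rw [map_mul] <;>
    exact (mul_le_of_le_one_left' (hg.1 _ _).2).trans (hg.2 _ _)

lemma Gr_mul {F : Type} [Field F] (v : Valuation F ℤᵐ⁰) (r : ℕ) {g h : GL (Fin 2) F}
    (hg : g ∈ Gr v r) (hh : h ∈ Gr v r) : g * h ∈ Gr v r := by
  refine ⟨(GO v).mul_mem hg.1 hh.1, fun i j => ?_⟩
  have h1 : ((g * h : GL (Fin 2) F) : Matrix (Fin 2) (Fin 2) F) - 1 =
      ((g : Matrix (Fin 2) (Fin 2) F) - 1) * h + ((h : Matrix (Fin 2) (Fin 2) F) - 1) := by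
    rw [sub_mul, one_mul, Units.val_mul]; abel
  change v ((((g * h : GL (Fin 2) F) : Matrix (Fin 2) (Fin 2) F) - 1) i j) ≤ _
  rw [h1, Matrix.add_apply, Matrix.mul_apply, Fin.sum_univ_two]
  refine v.map_add_le (v.map_add_le ?_ ?_) (hh.2 _ _) <;> rw [map_mul] <;>
    exact (mul_le_of_le_one_right' (hh.1 _ _).1).trans (hg.2 _ _)

/-- the principal congruence subgroup of level one -/
def GrS {F : Type} [Field F] (v : Valuation F ℤᵐ⁰) (r : ℕ) : Subgroup (GL (Fin 2) F) where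
  carrier := Gr v r
  one_mem' := ⟨(GO v).one_mem, by simp⟩
  mul_mem' := Gr_mul v r
  inv_mem' := Gr_inv v r

lemma tp1 : ∃ U : Subgroup (GL (Fin 2) Ki), IsOpen (U : Set (GL (Fin 2) Ki)) ∧
    (U : Set (GL (Fin 2) Ki)) ⊆ Gr Valued.v 1 := by
  refine ⟨GrS vI 1, ?_, subset_rfl⟩
  have hI : IsOpen {y : Ki | Valued.v y ≤ 1} := Valued.isOpen_valuationSubring Ki
  have hJ : IsOpen {y : Ki | Valued.v y < 1} := by
    have := open_lt (1 : Ki)
    rwa [map_one] at this
  have hJ' : ∀ i j : Fin 2, IsOpen {g : GL (Fin 2) Ki |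
      Valued.v (g i j - (1 : Matrix (Fin 2) (Fin 2) Ki) i j) < 1} := fun i j =>
    hJ.preimage ((Units.continuous_val.matrix_elem i j).sub continuous_const)
  have hI' : ∀ i j : Fin 2, IsOpen {g : GL (Fin 2) Ki | Valued.v (g i j) ≤ 1} := fun i j =>
    hI.preimage (Units.continuous_val.matrix_elem i j)
  have hI'' : ∀ i j : Fin 2, IsOpen {g : GL (Fin 2) Ki |
      Valued.v ((g⁻¹ : GL (Fin 2) Ki) i j) ≤ 1} := fun i j =>
    hI.preimage ((Units.continuous_val.comp continuous_inv).matrix_elem i j)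
  have he : ((GrS vI 1 : Subgroup (GL (Fin 2) Ki)) : Set (GL (Fin 2) Ki)) =
      ⋂ i, ⋂ j, ({g : GL (Fin 2) Ki | Valued.v (g i j - (1 : Matrix (Fin 2) (Fin 2) Ki) i j) < 1} ∩
        {g : GL (Fin 2) Ki | Valued.v (g i j) ≤ 1} ∩
        {g : GL (Fin 2) Ki | Valued.v ((g⁻¹ : GL (Fin 2) Ki) i j) ≤ 1}) := by
    ext g
    simp only [Set.mem_iInter, Set.mem_inter_iff, Set.mem_ofPred_eq]
    constructor
    · intro h i j
      refine ⟨⟨(h.2 i j).trans_lt ?_, (h.1 i j).1⟩, (h.1 i j).2⟩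
      rw [← exp_zero, exp_lt_exp]
      simp
    · intro h
      refine ⟨fun i j => ⟨(h i j).1.2, (h i j).2⟩, fun i j => ?_⟩
      have h1 := (h i j).1.1
      rcases eq_or_ne (vI (g i j - (1 : Matrix (Fin 2) (Fin 2) Ki) i j)) 0 with h0 | h0
      · rw [h0]; exact zero_le
      · have h2 : vI (g i j - (1 : Matrix (Fin 2) (Fin 2) Ki) i j) < 1 := h1
        rw [← exp_log h0] at h2 ⊢
        rw [← exp_zero, exp_lt_exp] at h2
        rw [exp_le_exp]
        simp only [Nat.cast_one]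
        omega
  rw [he]
  exact isOpen_iInter_of_finite fun i => isOpen_iInter_of_finite fun j =>
    ((hJ' i j).inter (hI' i j)).inter (hI'' i j)

lemma tp2 (U : Subgroup (GL (Fin 2) Ki)) (hU : IsOpen (U : Set (GL (Fin 2) Ki))) :
    ∃ r : ℕ, Gr Valued.v r ⊆ (U : Set (GL (Fin 2) Ki)) := by
  by_contra hcon
  push Not at hcon
  have hex : ∀ r : ℕ, ∃ g : GL (Fin 2) Ki, g ∈ Gr (Valued.v : Valuation Ki ℤᵐ⁰) r ∧ g ∉ U := by
    intro r
    obtain ⟨g, hg, hgU⟩ := Set.not_subset.1 (hcon r)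
    exact ⟨g, hg, hgU⟩
  choose g hg hgU using hex
  have h1 : Filter.Tendsto g Filter.atTop (𝓝 1) := by
    refine tendsto_GL g (fun i j => ?_) (fun i j => ?_)
    · exact tendsto_of_val _ _ 0 fun n _ => (hg n).2 i j
    · exact tendsto_of_val _ _ 0 fun n _ => (Gr_inv _ n (hg n)).2 i j
  have h2 := h1.eventually (hU.mem_nhds U.one_mem)
  obtain ⟨n, hn⟩ := h2.exists
  exact hgU n hn

/-! ### continuity -/

lemma nU_cont {R : Type} [CommRing R] [TopologicalSpace R] [IsTopologicalRing R] :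
    Continuous (nU : R → GL (Fin 2) R) := by
  rw [Units.continuous_iff]
  constructor
  · refine continuous_matrix fun i j => ?_
    fin_cases i <;> fin_cases j
    · exact continuous_const
    · exact continuous_id
    · exact continuous_const
    · exact continuous_const
  · refine continuous_matrix fun i j => ?_
    fin_cases i <;> fin_cases j
    · exact continuous_const
    · exact continuous_neg
    · exact continuous_const
    · exact continuous_const

lemma tp5 : Continuous nA :=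
  (nU_cont.comp continuous_fst).prodMk (nU_cont.comp continuous_snd)

end Pool.Agent.T2h09.LL
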